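import Mathlib

/-! A random set of density `w`, chosen greedily, with errors of the size of the square root of the variance. -/

set_option autoImplicit false

namespace Pool.Agent.H4.GG

open Filter Topology ComplexConjugate

/-- a summable positive weight -/
lemma exists_weight (I : Type) [Countable I] : ∃ w : I → ℝ, (∀ i, 0 < w i) ∧ Summable w := by
  obtain ⟨e, he⟩ := exists_injective_nat I
  refine ⟨fun i => (1 / 2) ^ (e i), fun i => by positivity, ?_⟩
  exact (summable_geometric_two).comp_injective he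

lemma norm_sq_comb (D t : ℂ) (w : ℝ) :
    (1 - w) * ‖D - w * t‖ ^ 2 + w * ‖D + (1 - w) * t‖ ^ 2 = ‖D‖ ^ 2 + w * (1 - w) * ‖t‖ ^ 2 := by
  have h : ∀ z : ℂ, ‖z‖ ^ 2 = z.re ^ 2 + z.im ^ 2 := by
    intro z
    rw [← Complex.normSq_eq_norm_sq, Complex.normSq_apply]; ring
  rw [h, h, h, h]
  have e1 : ((w : ℂ) * t).re = w * t.re := by simp
  have e2 : ((w : ℂ) * t).im = w * t.im := by simp
  have e3 : ((1 - (w : ℂ)) * t).re = (1 - w) * t.re := by simp
  have e4 : ((1 - (w : ℂ)) * t).im = (1 - w) * t.im := by simp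
  rw [Complex.sub_re, Complex.sub_im, Complex.add_re, Complex.add_im, e1, e2, e3, e4]
  ring

section
variable {K : Type} (om : K → ℝ) (hom0 : ∀ i, 0 ≤ om i) (hom : Summable om)

include hom0 hom

lemma summ_sq {D : K → ℂ} {B : ℝ} (hD : ∀ i, ‖D i‖ ≤ B) : Summable fun i => om i * ‖D i‖ ^ 2 := by
  refine Summable.of_nonneg_of_le (fun i => mul_nonneg (hom0 i) (by positivity)) (fun i => ?_)
    (hom.mul_right (B ^ 2))
  exact mul_le_mul_of_nonneg_left (pow_le_pow_left₀ (norm_nonneg _) (hD i) 2) (hom0 i)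

theorem step {w : ℝ} (hw0 : 0 ≤ w) (hw1 : w ≤ 1) (D t : K → ℂ) {B : ℝ} (hD : ∀ i, ‖D i‖ ≤ B)
    (ht : ∀ i, ‖t i‖ ≤ 1) :
    (∑' i, om i * ‖D i - w * t i‖ ^ 2 ≤ ∑' i, om i * ‖D i‖ ^ 2 + w * ∑' i, om i) ∨
      (∑' i, om i * ‖D i + (1 - w) * t i‖ ^ 2 ≤ ∑' i, om i * ‖D i‖ ^ 2 + w * ∑' i, om i) := by
  have hB1 : ∀ i, ‖D i - w * t i‖ ≤ B + 1 := fun i => by
    refine (norm_sub_le _ _).trans (add_le_add (hD i) ?_)
    rw [norm_mul, Complex.norm_real, Real.norm_of_nonneg hw0]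
    nlinarith [ht i, norm_nonneg (t i)]
  have hB2 : ∀ i, ‖D i + (1 - w) * t i‖ ≤ B + 1 := fun i => by
    refine (norm_add_le _ _).trans (add_le_add (hD i) ?_)
    rw [norm_mul, ← Complex.ofReal_one, ← Complex.ofReal_sub, Complex.norm_real,
      Real.norm_of_nonneg (by linarith)]
    nlinarith [ht i, norm_nonneg (t i)]
  have s1 := summ_sq om hom0 hom hB1
  have s2 := summ_sq om hom0 hom hB2
  have s0 := summ_sq om hom0 hom hD
  have key : (1 - w) * ∑' i, om i * ‖D i - w * t i‖ ^ 2 + w * ∑' i, om i * ‖D i + (1 - w) * t i‖ ^ 2 ≤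
      ∑' i, om i * ‖D i‖ ^ 2 + w * ∑' i, om i := by
    rw [← tsum_mul_left, ← tsum_mul_left, ← tsum_mul_left,
      ← (s1.mul_left (1 - w)).tsum_add (s2.mul_left w), ← s0.tsum_add (hom.mul_left w)]
    refine ((s1.mul_left (1 - w)).add (s2.mul_left w)).tsum_le_tsum (fun i => ?_)
      (s0.add (hom.mul_left w))
    have h := norm_sq_comb (D i) (t i) w
    have h1 : ‖t i‖ ^ 2 ≤ 1 := by
      have := ht i
      nlinarith [norm_nonneg (t i)]
    have h2 : (1 - w) * (om i * ‖D i - w * t i‖ ^ 2) + w * (om i * ‖D i + (1 - w) * t i‖ ^ 2) =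
        om i * (‖D i‖ ^ 2 + w * (1 - w) * ‖t i‖ ^ 2) := by
      rw [← h]; ring
    rw [h2]
    have h3 : w * (1 - w) * ‖t i‖ ^ 2 ≤ w := by
      have h4 : w * (1 - w) ≤ w := by nlinarith
      have h5 : 0 ≤ w * (1 - w) := mul_nonneg hw0 (by linarith)
      nlinarith [sq_nonneg ‖t i‖]
    have := mul_le_mul_of_nonneg_left h3 (hom0 i)
    nlinarith [this]
  by_contra hcon
  rw [not_or, not_le, not_le] at hcon
  obtain ⟨h1, h2⟩ := hcon
  set X := ∑' i, om i * ‖D i‖ ^ 2 + w * ∑' i, om i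
  have h3 : (1 - w) * X ≤ (1 - w) * ∑' i, om i * ‖D i - w * t i‖ ^ 2 :=
    mul_le_mul_of_nonneg_left h1.le (by linarith)
  have h4 : w * X ≤ w * ∑' i, om i * ‖D i + (1 - w) * t i‖ ^ 2 :=
    mul_le_mul_of_nonneg_left h2.le hw0
  rcases lt_or_ge w 1 with h5 | h5
  · have h6 : (1 - w) * X < (1 - w) * ∑' i, om i * ‖D i - w * t i‖ ^ 2 :=
      mul_lt_mul_of_pos_left h1 (by linarith)
    nlinarith
  · have h6 : w = 1 := le_antisymm hw1 h5
    rw [h6] at h2 key
    simp only [one_mul, sub_self, zero_mul, zero_add] at key h2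
    rw [h6] at h1
    have : X = ∑' i, om i * ‖D i‖ ^ 2 + ∑' i, om i := by simp only [X, h6, one_mul]
    linarith

end

/-- **The greedy set.** -/
theorem exists_set {K : Type} [Countable K] (w : ℕ → ℝ) (hw0 : ∀ q, 0 ≤ w q) (hw1 : ∀ q, w q ≤ 1)
    (t : K → ℕ → ℂ) (ht : ∀ k q, ‖t k q‖ ≤ 1) :
    ∃ T : Set ℕ, (∀ q, w q = 0 → q ∉ T) ∧ ∀ k, ∃ C : ℝ, 0 ≤ C ∧ ∀ N : ℕ,
      ‖∑ q ∈ Finset.range N, (T.indicator (fun _ => (1 : ℂ)) q - w q) * t k q‖ ≤
        C * Real.sqrt (∑ q ∈ Finset.range N, w q) := by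
  classical
  obtain ⟨om, hom0, hom⟩ := exists_weight K
  let St := {D : K → ℂ // ∃ B, ∀ i, ‖D i‖ ≤ B}
  let Ph : (K → ℂ) → ℝ := fun D => ∑' i, om i * ‖D i‖ ^ 2
  set W := ∑' i, om i with hW
  have hW0 : 0 ≤ W := tsum_nonneg fun i => (hom0 i).le
  -- the decision
  let no : ℕ → St → Prop := fun q D =>
    Ph (fun i => D.1 i - w q * t i q) ≤ Ph D.1 + w q * W
  have hnext : ∀ (q : ℕ) (D : St) (x : ℂ) (_ : ‖x‖ ≤ 1), ∃ B, ∀ i, ‖D.1 i + (x - w q) * t i q‖ ≤ B := by
    intro q D x hx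
    obtain ⟨B, hB⟩ := D.2
    refine ⟨B + 2, fun i => (norm_add_le _ _).trans (add_le_add (hB i) ?_)⟩
    rw [norm_mul]
    have h1 : ‖x - (w q : ℂ)‖ ≤ 2 := by
      refine (norm_sub_le _ _).trans ?_
      rw [Complex.norm_real, Real.norm_of_nonneg (hw0 q)]
      linarith [hw1 q]
    calc ‖x - (w q : ℂ)‖ * ‖t i q‖ ≤ 2 * 1 :=
          mul_le_mul h1 (ht i q) (norm_nonneg _) (by norm_num)
      _ = 2 := by norm_num
  let bb : ℕ → St → ℂ := fun q D => if no q D then 0 else 1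
  have hbb : ∀ q D, ‖bb q D‖ ≤ 1 := by
    intro q D
    show ‖(if no q D then (0 : ℂ) else 1)‖ ≤ 1
    split_ifs <;> simp
  let next : ℕ → St → St := fun q D => ⟨fun i => D.1 i + (bb q D - w q) * t i q, hnext q D _ (hbb q D)⟩
  let seq : ℕ → St := fun N => Nat.rec (⟨fun _ => 0, 0, fun i => by simp⟩ : St) next N
  have hseq0 : seq 0 = ⟨fun _ => 0, 0, fun i => by simp⟩ := rfl
  have hseq1 : ∀ N, seq (N + 1) = next N (seq N) := fun N => rfl
  let T : Set ℕ := {q | ¬ no q (seq q)}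
  have hT : ∀ q, T.indicator (fun _ => (1 : ℂ)) q = bb q (seq q) := by
    intro q
    show _ = (if no q (seq q) then (0 : ℂ) else 1)
    by_cases h : no q (seq q)
    · rw [if_pos h, Set.indicator_of_notMem (fun h' : q ∈ T => h' h)]
    · rw [if_neg h, Set.indicator_of_mem (show q ∈ T from h)]
  have hval : ∀ i N, (seq N).1 i = ∑ q ∈ Finset.range N, (T.indicator (fun _ => (1 : ℂ)) q - w q) * t i q := by
    intro i N
    induction N with
    | zero => rw [hseq0]; simp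
    | succ N ih => rw [Finset.sum_range_succ, ← ih, hseq1, hT]
  have hstep : ∀ (q : ℕ) (D : St), Ph (next q D).1 ≤ Ph D.1 + w q * W := by
    intro q D
    obtain ⟨B, hB⟩ := D.2
    have h := step om (fun i => (hom0 i).le) hom (hw0 q) (hw1 q) D.1 (fun i => t i q) hB
      (fun i => ht i q)
    show ∑' i, om i * ‖D.1 i + ((if no q D then (0 : ℂ) else 1) - w q) * t i q‖ ^ 2 ≤ _
    by_cases hn : no q D
    · have h1 : Ph (fun i => D.1 i - w q * t i q) ≤ Ph D.1 + w q * W := hn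
      have h2 : ∀ i, D.1 i + ((if no q D then (0 : ℂ) else 1) - w q) * t i q =
          D.1 i - w q * t i q := fun i => by rw [if_pos hn]; ring
      simp only [h2]
      exact h1
    · rcases h with h | h
      · exact absurd h hn
      · have h2 : ∀ i, D.1 i + ((if no q D then (0 : ℂ) else 1) - w q) * t i q =
            D.1 i + (1 - w q) * t i q := fun i => by rw [if_neg hn]
        simp only [h2]
        exact h
  have hpot : ∀ N, Ph (seq N).1 ≤ W * ∑ q ∈ Finset.range N, w q := by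
    intro N
    induction N with
    | zero => rw [hseq0]; simp [Ph]
    | succ N ih =>
      rw [hseq1, Finset.sum_range_succ]
      have := hstep N (seq N)
      nlinarith
  refine ⟨T, fun q hq hqT => ?_, fun k => ⟨Real.sqrt (W / om k), Real.sqrt_nonneg _, fun N => ?_⟩⟩
  · apply hqT
    show Ph (fun i => (seq q).1 i - w q * t i q) ≤ Ph (seq q).1 + w q * W
    rw [hq]
    simp [Ph]
  · rw [← hval k N, ← Real.sqrt_mul (div_nonneg hW0 (hom0 k).le)]
    refine Real.le_sqrt_of_sq_le ?_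
    obtain ⟨B, hB⟩ := (seq N).2
    have hs := summ_sq om (fun i => (hom0 i).le) hom hB
    have h1 : om k * ‖(seq N).1 k‖ ^ 2 ≤ Ph (seq N).1 :=
      hs.le_tsum k fun j _ => mul_nonneg (hom0 j).le (by positivity)
    have h2 := h1.trans (hpot N)
    have h3 : W / om k * (∑ q ∈ Finset.range N, w q) = (W * ∑ q ∈ Finset.range N, w q) / om k := by ring
    rw [h3, le_div_iff₀ (hom0 k)]
    linarith

end Pool.Agent.H4.GG
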