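import Pool.Agent.H70.CS.Main
import Pool.Agent.H4.GG.Greedy

/-! Dirichlet series over the primes modulo functions holomorphic in `Re s > 1/4`. -/

set_option autoImplicit false

namespace Pool.Agent.H4.GG

open Pool.Agent.H70.CS Complex Filter Topology Finset

/-- The functions which agree in `Re s > 1` with a function holomorphic in `Re s > 1/4`. -/
def Q4 : Submodule ℂ (ℂ → ℂ) where
  carrier := {f | ∃ h : ℂ → ℂ, DifferentiableOn ℂ h (HP (1 / 4)) ∧ ∀ s : ℂ, 1 < s.re → f s = h s}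
  zero_mem' := ⟨fun _ => 0, differentiableOn_const _, fun _ _ => rfl⟩
  add_mem' := by
    rintro f g ⟨h, hh, hf⟩ ⟨k, hk, hg⟩
    exact ⟨fun s => h s + k s, hh.add hk, fun s hs => by rw [Pi.add_apply, hf s hs, hg s hs]⟩
  smul_mem' := by
    rintro c f ⟨h, hh, hf⟩
    exact ⟨fun s => c * h s, hh.const_mul c, fun s hs => by rw [Pi.smul_apply, hf s hs, smul_eq_mul]⟩

theorem q4_of_eq {f g : ℂ → ℂ} (hf : f ∈ Q4) (h : ∀ s : ℂ, 1 < s.re → g s = f s) : g ∈ Q4 := by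
  obtain ⟨k, hk, hfk⟩ := hf
  exact ⟨k, hk, fun s hs => (h s hs).trans (hfk s hs)⟩

/-- a shift by one half -/
theorem q4_shift {f : ℂ → ℂ} (hf : f ∈ H70.CS.Neg) : (fun s => f (s + 1 / 2)) ∈ Q4 := by
  obtain ⟨k, hk, hfk⟩ := hf
  have hre : ∀ s : ℂ, (s + 1 / 2).re = s.re + 1 / 2 := fun s => by simp
  refine ⟨fun s => k (s + 1 / 2), ?_, fun s hs => hfk _ ?_⟩
  · refine hk.comp ((differentiable_id.add_const _).differentiableOn) fun s hs => ?_
    show 1 / 2 < (s + 1 / 2).re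
    have : 1 / 4 < s.re := hs
    rw [hre]; linarith
  · rw [hre]; linarith

/-- A Dirichlet series with partial sums of the coefficients `O(N^(1/4))` is holomorphic in `Re s > 1/4`. -/
theorem q4_of_fourth {c : ℕ → ℂ} (h0 : c 0 = 0) {M : ℝ} (hM : ∀ q, ‖c q‖ ≤ M) {C : ℝ}
    (hC : ∀ N : ℕ, ‖∑ q ∈ range N, c q‖ ≤ C * (N : ℝ) ^ (1 / 4 : ℝ)) :
    (fun s : ℂ => ∑' q : ℕ, c q * (q : ℂ) ^ (-s)) ∈ Q4 := by
  have hC0 : 0 ≤ C := by
    have h1 := hC 1
    have h2 := norm_nonneg (∑ q ∈ range 1, c q)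
    simp only [Nat.cast_one, Real.one_rpow, mul_one] at h1
    linarith
  set S : ℕ → ℂ := fun q => ∑ k ∈ range (q + 1), c k with hS
  have hS0 : S 0 = 0 := by rw [hS]; simp [h0]
  have hSb : ∀ q : ℕ, 0 < q → ‖S q‖ ≤ C * (2 * (q : ℝ) ^ (1 / 4 : ℝ)) := by
    intro q hq
    refine (hC (q + 1)).trans ?_
    gcongr
    have hq1 : (1 : ℝ) ≤ q := by exact_mod_cast hq
    have h1 : ((q + 1 : ℕ) : ℝ) ≤ 2 * q := by push_cast; linarith
    calc ((q + 1 : ℕ) : ℝ) ^ (1 / 4 : ℝ) ≤ (2 * (q : ℝ)) ^ (1 / 4 : ℝ) :=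
          Real.rpow_le_rpow (by positivity) h1 (by norm_num)
      _ = 2 ^ (1 / 4 : ℝ) * (q : ℝ) ^ (1 / 4 : ℝ) := Real.mul_rpow (by norm_num) (by positivity)
      _ ≤ 2 * (q : ℝ) ^ (1 / 4 : ℝ) := by
          gcongr
          calc (2 : ℝ) ^ (1 / 4 : ℝ) ≤ 2 ^ (1 : ℝ) :=
                Real.rpow_le_rpow_of_exponent_le (by norm_num) (by norm_num)
            _ = 2 := Real.rpow_one 2
  refine ⟨fun s => ∑' q : ℕ, S q * ((q : ℂ) ^ (-s) - ((q + 1 : ℕ) : ℂ) ^ (-s)), ?_, ?_⟩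
  · refine differentiableOn_HP ?_ ?_
    · intro q
      rcases Nat.eq_zero_or_pos q with rfl | hq
      · rw [hS0]; simp
      · have h1 : (q : ℂ) ≠ 0 := by exact_mod_cast hq.ne'
        have h2 : ((q + 1 : ℕ) : ℂ) ≠ 0 := by exact_mod_cast Nat.succ_ne_zero q
        exact (((differentiable_id.neg.const_cpow (Or.inl h1)).sub
          (differentiable_id.neg.const_cpow (Or.inl h2))).const_mul _).differentiableOn
    · intro ε R hε hR
      refine ⟨fun q => 2 * C * R * (q : ℝ) ^ (-1 - ε), ?_, ?_⟩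
      · exact (Real.summable_nat_rpow.2 (by linarith)).mul_left _
      · intro q s hs hsR
        rcases Nat.eq_zero_or_pos q with rfl | hq
        · rw [hS0, zero_mul, norm_zero]; positivity
        · have hq1 : (1 : ℝ) ≤ q := by exact_mod_cast hq
          have hq0 : (0 : ℝ) < q := by linarith
          rw [norm_mul]
          calc ‖S q‖ * ‖(q : ℂ) ^ (-s) - ((q + 1 : ℕ) : ℂ) ^ (-s)‖
              ≤ (C * (2 * (q : ℝ) ^ (1 / 4 : ℝ))) * (‖s‖ * (q : ℝ) ^ (-s.re - 1)) :=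
                mul_le_mul (hSb q hq) (norm_cpow_sub_le hq (by linarith)) (norm_nonneg _) (by positivity)
            _ = 2 * C * ‖s‖ * ((q : ℝ) ^ (1 / 4 : ℝ) * (q : ℝ) ^ (-s.re - 1)) := by ring
            _ = 2 * C * ‖s‖ * (q : ℝ) ^ (1 / 4 + (-s.re - 1) : ℝ) := by rw [Real.rpow_add hq0]
            _ ≤ 2 * C * R * (q : ℝ) ^ (-1 - ε) := by
                gcongr
                linarith
  · intro s hs
    have hsum : Summable fun q : ℕ => c q * (q : ℂ) ^ (-s) := by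
      refine Summable.of_norm_bounded (g := fun q : ℕ => M * (q : ℝ) ^ (-s.re))
        ((Real.summable_nat_rpow.2 (by linarith)).mul_left _) fun q => ?_
      rcases Nat.eq_zero_or_pos q with rfl | hq
      · rw [h0, zero_mul, norm_zero]
        have : 0 ≤ M := (norm_nonneg _).trans (hM 0)
        positivity
      · rw [norm_mul, norm_cpow_neg hq]
        gcongr
        exact hM q
    have h1 : Tendsto (fun N => ∑ q ∈ range (N + 1), c q * (q : ℂ) ^ (-s)) atTop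
        (𝓝 (∑' q : ℕ, c q * (q : ℂ) ^ (-s))) :=
      (tendsto_add_atTop_iff_nat 1).2 hsum.hasSum.tendsto_sum_nat
    have hsum2 : Summable fun q : ℕ => S q * ((q : ℂ) ^ (-s) - ((q + 1 : ℕ) : ℂ) ^ (-s)) := by
      refine Summable.of_norm_bounded (g := fun q : ℕ => 2 * C * ‖s‖ * (q : ℝ) ^ (-3 / 2 : ℝ))
        ((Real.summable_nat_rpow.2 (by norm_num)).mul_left _) fun q => ?_
      rcases Nat.eq_zero_or_pos q with rfl | hq
      · rw [hS0, zero_mul, norm_zero]; positivity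
      · have hq1 : (1 : ℝ) ≤ q := by exact_mod_cast hq
        have hq0 : (0 : ℝ) < q := by linarith
        rw [norm_mul]
        calc ‖S q‖ * ‖(q : ℂ) ^ (-s) - ((q + 1 : ℕ) : ℂ) ^ (-s)‖
            ≤ (C * (2 * (q : ℝ) ^ (1 / 4 : ℝ))) * (‖s‖ * (q : ℝ) ^ (-s.re - 1)) :=
              mul_le_mul (hSb q hq) (norm_cpow_sub_le hq (by linarith)) (norm_nonneg _) (by positivity)
          _ = 2 * C * ‖s‖ * ((q : ℝ) ^ (1 / 4 : ℝ) * (q : ℝ) ^ (-s.re - 1)) := by ring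
          _ = 2 * C * ‖s‖ * (q : ℝ) ^ (1 / 4 + (-s.re - 1) : ℝ) := by rw [Real.rpow_add hq0]
          _ ≤ 2 * C * ‖s‖ * (q : ℝ) ^ (-3 / 2 : ℝ) := by
              gcongr
              linarith
    have h2 : Tendsto (fun N => ∑ q ∈ range N, S q * ((q : ℂ) ^ (-s) - ((q + 1 : ℕ) : ℂ) ^ (-s))) atTop
        (𝓝 (∑' q : ℕ, S q * ((q : ℂ) ^ (-s) - ((q + 1 : ℕ) : ℂ) ^ (-s)))) := hsum2.hasSum.tendsto_sum_nat
    have h3 : Tendsto (fun N : ℕ => S N * (N : ℂ) ^ (-s)) atTop (𝓝 0) := by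
      rw [tendsto_zero_iff_norm_tendsto_zero]
      have h4 : Tendsto (fun N : ℕ => 2 * C * (N : ℝ) ^ (-(s.re - 1 / 4))) atTop (𝓝 0) := by
        have := ((tendsto_rpow_neg_atTop (show 0 < s.re - 1 / 4 by linarith)).comp
          tendsto_natCast_atTop_atTop).const_mul (2 * C)
        simpa using this
      refine squeeze_zero' (Eventually.of_forall fun _ => norm_nonneg _) ?_ h4
      filter_upwards [eventually_gt_atTop 0] with N hN
      have hN0 : (0 : ℝ) < N := by exact_mod_cast hN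
      rw [norm_mul, norm_cpow_neg hN]
      calc ‖S N‖ * (N : ℝ) ^ (-s.re) ≤ (C * (2 * (N : ℝ) ^ (1 / 4 : ℝ))) * (N : ℝ) ^ (-s.re) := by
            gcongr; exact hSb N hN
        _ = 2 * C * ((N : ℝ) ^ (1 / 4 : ℝ) * (N : ℝ) ^ (-s.re)) := by ring
        _ = 2 * C * (N : ℝ) ^ (-(s.re - 1 / 4)) := by
            rw [← Real.rpow_add hN0]; congr 2; ring
    have h5 : Tendsto (fun N => ∑ q ∈ range (N + 1), c q * (q : ℂ) ^ (-s)) atTop
        (𝓝 (0 + ∑' q : ℕ, S q * ((q : ℂ) ^ (-s) - ((q + 1 : ℕ) : ℂ) ^ (-s)))) := by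
      have := h3.add h2
      refine this.congr fun N => ?_
      exact (abel_sum c (fun q : ℕ => (q : ℂ) ^ (-s)) N).symm
    rw [zero_add] at h5
    exact tendsto_nhds_unique h1 h5

/-- finitely many primes -/
theorem dir_finite4 {b : Nat.Primes → ℂ} (Q : ℕ) (hb : ∀ p : Nat.Primes, Q ≤ p → b p = 0) : dir b ∈ Q4 := by
  classical
  have hfin : (Set.range fun p : {p : Nat.Primes // (p : ℕ) < Q} => p.1).Finite := by
    have : Set.Finite {p : Nat.Primes | (p : ℕ) < Q} := by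
      refine Set.Finite.of_finite_image (f := fun p : Nat.Primes => (p : ℕ)) ?_
        (Nat.Primes.coe_nat_injective.injOn)
      exact (Set.finite_lt_nat Q).subset (by rintro _ ⟨p, hp, rfl⟩; exact hp)
    refine this.subset ?_
    rintro _ ⟨p, rfl⟩
    exact p.2
  set F := hfin.toFinset
  refine ⟨fun s => ∑ p ∈ F, b p * ((p : ℕ) : ℂ) ^ (-s), ?_, fun s _ => ?_⟩
  · refine DifferentiableOn.fun_sum fun p _ => ?_
    have h1 : ((p : ℕ) : ℂ) ≠ 0 := by exact_mod_cast p.2.ne_zero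
    exact ((differentiable_id.neg.const_cpow (Or.inl h1)).const_mul _).differentiableOn
  · unfold dir
    rw [tsum_eq_sum (s := F)]
    intro p hp
    rw [hb p, zero_mul]
    by_contra hlt
    push Not at hlt
    exact hp (hfin.mem_toFinset.2 ⟨⟨p, hlt⟩, rfl⟩)

theorem norm_mul_cpow_lt4 {w : ℂ} (hw : ‖w‖ ≤ 1) {p : ℕ} (hp : 2 ≤ p) {s : ℂ} (hs : 1 / 4 < s.re) :
    ‖w * (p : ℂ) ^ (-s)‖ ≤ 6 / 7 := by
  have hp0 : (0 : ℝ) < p := by exact_mod_cast (by omega : 0 < p)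
  have hp2 : (2 : ℝ) ≤ p := by exact_mod_cast hp
  rw [norm_mul, norm_cpow_neg (by omega)]
  have h1 : (p : ℝ) ^ (-s.re) ≤ 2 ^ (-(1 / 4) : ℝ) := by
    calc (p : ℝ) ^ (-s.re) ≤ (2 : ℝ) ^ (-s.re) := Real.rpow_le_rpow_of_nonpos (by norm_num) hp2 (by linarith)
      _ ≤ 2 ^ (-(1 / 4) : ℝ) := Real.rpow_le_rpow_of_exponent_le (by norm_num) (by linarith)
  have h2 : (2 : ℝ) ^ (-(1 / 4) : ℝ) ≤ 6 / 7 := by
    have h3 : ((2 : ℝ) ^ (-(1 / 4) : ℝ)) ^ 4 = 1 / 2 := by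
      rw [← Real.rpow_natCast, ← Real.rpow_mul (by norm_num)]
      norm_num
    by_contra hcon
    push Not at hcon
    have h4 : (6 / 7 : ℝ) ^ 4 < ((2 : ℝ) ^ (-(1 / 4) : ℝ)) ^ 4 :=
      pow_lt_pow_left₀ hcon (by norm_num) (by norm_num)
    rw [h3] at h4
    norm_num at h4
  have h3 : (0 : ℝ) ≤ (p : ℝ) ^ (-s.re) := by positivity
  nlinarith [norm_nonneg w]

/-- a bound for the terms of higher degree -/
lemma tail_bound {b : ℂ} (hb : ‖b‖ ≤ 1) (p : Nat.Primes) {s : ℂ} (hs : 1 / 4 < s.re) :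
    ‖-Complex.log (1 - b * ((p : ℕ) : ℂ) ^ (-s)) - b * ((p : ℕ) : ℂ) ^ (-s)‖ ≤
      4 * ((p : ℕ) : ℝ) ^ (-(2 * s.re)) := by
  have h1 := norm_mul_cpow_lt4 hb p.2.two_le hs
  have h2 := Complex.norm_log_one_add_sub_self_le (z := -(b * ((p : ℕ) : ℂ) ^ (-s)))
    (by rw [norm_neg]; linarith)
  rw [norm_neg] at h2
  have h3 : -Complex.log (1 - b * ((p : ℕ) : ℂ) ^ (-s)) - b * ((p : ℕ) : ℂ) ^ (-s) =
      -(Complex.log (1 + -(b * ((p : ℕ) : ℂ) ^ (-s))) - -(b * ((p : ℕ) : ℂ) ^ (-s))) := by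
    rw [← sub_eq_add_neg]; ring
  rw [h3, norm_neg]
  refine h2.trans ?_
  have h4 : (1 - ‖b * ((p : ℕ) : ℂ) ^ (-s)‖)⁻¹ ≤ 7 := by
    rw [inv_le_comm₀ (by linarith) (by norm_num)]
    linarith
  have h5 : ‖b * ((p : ℕ) : ℂ) ^ (-s)‖ ^ 2 ≤ ((p : ℕ) : ℝ) ^ (-(2 * s.re)) := by
    have h6 : ‖b * ((p : ℕ) : ℂ) ^ (-s)‖ ≤ ((p : ℕ) : ℝ) ^ (-s.re) := by
      rw [norm_mul, norm_cpow_neg p.2.pos]
      have h7 : (0 : ℝ) ≤ ((p : ℕ) : ℝ) ^ (-s.re) := by positivity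
      nlinarith
    calc ‖b * ((p : ℕ) : ℂ) ^ (-s)‖ ^ 2 ≤ (((p : ℕ) : ℝ) ^ (-s.re)) ^ 2 := by gcongr
      _ = ((p : ℕ) : ℝ) ^ (-(2 * s.re)) := by
        rw [← Real.rpow_natCast, ← Real.rpow_mul (Nat.cast_nonneg _)]
        congr 1
        push_cast
        ring
  have h9 : (0 : ℝ) ≤ (1 - ‖b * ((p : ℕ) : ℂ) ^ (-s)‖)⁻¹ := inv_nonneg.2 (by linarith)
  have h10 : 0 ≤ ((p : ℕ) : ℝ) ^ (-(2 * s.re)) := by positivity
  calc ‖b * ((p : ℕ) : ℂ) ^ (-s)‖ ^ 2 * (1 - ‖b * ((p : ℕ) : ℂ) ^ (-s)‖)⁻¹ / 2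
      ≤ ((p : ℕ) : ℝ) ^ (-(2 * s.re)) * 7 / 2 := by gcongr
    _ ≤ 4 * ((p : ℕ) : ℝ) ^ (-(2 * s.re)) := by linarith

/-- The terms of higher degree on a thin set of primes. -/
theorem thin_tail {T : Set Nat.Primes}
    (hT : ∀ x : ℝ, 1 / 2 < x → Summable (T.indicator fun p : Nat.Primes => ((p : ℕ) : ℝ) ^ (-x)))
    {v u : Nat.Primes → ℂ} (hv : ∀ p, ‖v p‖ ≤ 1) (hu : ∀ p, ‖u p‖ ≤ 1) (hvu : ∀ p, p ∉ T → v p = u p) :
    (lam v - dir v) - (lam u - dir u) ∈ Q4 := by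
  set f : (Nat.Primes → ℂ) → Nat.Primes → ℂ → ℂ := fun b p s =>
    -Complex.log (1 - b p * ((p : ℕ) : ℂ) ^ (-s)) - b p * ((p : ℕ) : ℂ) ^ (-s) with hf
  have hzero : ∀ p, p ∉ T → ∀ s, f v p s - f u p s = 0 := by
    intro p hp s
    rw [hf]
    simp only
    rw [hvu p hp, sub_self]
  have hbound : ∀ p (s : ℂ), 1 / 4 < s.re → ‖f v p s - f u p s‖ ≤
      8 * T.indicator (fun p : Nat.Primes => ((p : ℕ) : ℝ) ^ (-(2 * s.re))) p := by
    intro p s hs
    by_cases hp : p ∈ T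
    · rw [Set.indicator_of_mem hp]
      refine (norm_sub_le _ _).trans ?_
      have h1 := tail_bound (hv p) p hs
      have h2 := tail_bound (hu p) p hs
      rw [hf]
      simp only
      linarith
    · rw [hzero p hp, norm_zero, Set.indicator_of_notMem hp, mul_zero]
  have hdiff : ∀ b : Nat.Primes → ℂ, (∀ p, ‖b p‖ ≤ 1) → ∀ p, DifferentiableOn ℂ (f b p) (HP (1 / 4)) := by
    intro b hb p s hs
    have hp : ((p : ℕ) : ℂ) ≠ 0 := by exact_mod_cast p.2.ne_zero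
    have h1 : DifferentiableAt ℂ (fun s : ℂ => b p * ((p : ℕ) : ℂ) ^ (-s)) s :=
      (differentiable_id.neg.const_cpow (Or.inl hp)).differentiableAt.const_mul _
    have h2 : DifferentiableAt ℂ (fun s : ℂ => 1 - b p * ((p : ℕ) : ℂ) ^ (-s)) s :=
      (differentiableAt_const _).sub h1
    have h3 : 1 - b p * ((p : ℕ) : ℂ) ^ (-s) ∈ Complex.slitPlane := by
      rw [sub_eq_add_neg]
      refine Complex.mem_slitPlane_of_norm_lt_one ?_
      rw [norm_neg]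
      have := norm_mul_cpow_lt4 (hb p) p.2.two_le (show 1 / 4 < s.re from hs)
      linarith
    exact ((h2.clog h3).neg.sub h1).differentiableWithinAt
  refine ⟨fun s => ∑' p : Nat.Primes, (f v p s - f u p s), ?_, ?_⟩
  · refine differentiableOn_HP (fun p => (hdiff v hv p).sub (hdiff u hu p)) ?_
    intro ε R hε hR
    refine ⟨fun p => 8 * T.indicator (fun p : Nat.Primes => ((p : ℕ) : ℝ) ^ (-(1 / 2 + 2 * ε))) p,
      (hT _ (by linarith)).mul_left _, ?_⟩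
    intro p s hs _
    refine (hbound p s (by linarith)).trans ?_
    refine mul_le_mul_of_nonneg_left ?_ (by norm_num)
    refine Set.indicator_le_indicator ?_
    have hp1 : (1 : ℝ) ≤ ((p : ℕ) : ℝ) := by exact_mod_cast p.2.one_lt.le
    exact Real.rpow_le_rpow_of_exponent_le hp1 (by linarith)
  · intro s hs
    have hs1 : ∀ b : Nat.Primes → ℂ, (∀ p, ‖b p‖ ≤ 1) → Summable (fun p => f b p s) ∧
        (lam b - dir b) s = ∑' p, f b p s := by
      intro b hb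
      have h1 := summable_lam hb hs
      have h2 := summable_dir hb hs
      refine ⟨h1.sub h2, ?_⟩
      rw [Pi.sub_apply]
      unfold lam dir
      rw [← h1.tsum_sub h2]
    obtain ⟨a1, a2⟩ := hs1 v hv
    obtain ⟨b1, b2⟩ := hs1 u hu
    rw [Pi.sub_apply, a2, b2, ← a1.tsum_sub b1]

end Pool.Agent.H4.GG
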