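import Pool.Agent.H70.CS.Defs

/-!
# Tempered families of Satake classes for the Gan-Gross-Prasad L-functions over the rational numbers

`V` and `W` are quadratic spaces over `ℚ` as in the problem (`E = F = ℚ`): one of them has the odd dimension
`2 b + 1`, the other one the even dimension `2 a`.  The standard representations of the L-groups have the
dimensions `2 b` (image `Sp_{2b}(ℂ)`) and `2 a` (image `O_{2a}(ℂ)`).  A tempered Satake class is given by the
eigenvalues: `y_j^{±1}`, `|y_j| = 1`, and `x_i^{±1}`, `|x_i| = 1`, if the even-dimensional space has a square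
discriminant at `p` (with the right sign); otherwise the Frobenius acts on `SO_{2a}(ℂ)` by an outer automorphism, the
class has determinant `-1` and the last pair of eigenvalues is `1, -1`.
-/

set_option autoImplicit false

namespace Pool.Agent.H4.GG

open Pool.Agent.H70.CS

/-- The Euler product `∏_p ∏_k (1 - e_k(p) p^{-s})⁻¹`. -/
noncomputable def LEul {K : Type} [Fintype K] (e : Nat.Primes → K → ℂ) (s : ℂ) : ℂ :=
  ∏' p : Nat.Primes, ∏ k, (1 - e p k * ((p : ℕ) : ℂ) ^ (-s))⁻¹

/-- `F` is a meromorphic function on `Re s > 1/4` which is equal to `f` for `Re s > 1`. -/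
def IsCont (F f : ℂ → ℂ) : Prop := MeromorphicOn F (HP (1 / 4)) ∧ ∀ s : ℂ, 1 < s.re → F s = f s

/-- The number of the primes of `T` below `N`. -/
noncomputable def cnt (T : Set Nat.Primes) (N : ℕ) : ℕ := {p : Nat.Primes | p ∈ T ∧ (p : ℕ) < N}.ncard

/-- `T` has `c ∑_{p < N} p^(-1/2) + O(N^(1/4))` elements below `N` (about `2 c √N / log N`). -/
def Thin (c : ℕ) (T : Set Nat.Primes) : Prop :=
  ∃ C : ℝ, ∀ N : ℕ, |(cnt T N : ℝ) - c * ∑ q ∈ (Finset.range N).filter Nat.Prime, (q : ℝ) ^ (-(1 / 2) : ℝ)| ≤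
    C * (N : ℝ) ^ (1 / 4 : ℝ)

/-- The points of the compact tori of the two dual groups. -/
abbrev Tor (a b : ℕ) := (Fin a → Circle) × (Fin b → Circle)

/-- The eigenvalues of the class in `O_{2a}(ℂ)`: `x_i^{±1}`, or, if `split` is false, with the last pair replaced by
`1, -1`. -/
noncomputable def alpha {a : ℕ} (split : Bool) (x : Fin a → Circle) (k : Fin a × Bool) : ℂ :=
  if split = false ∧ (k.1 : ℕ) + 1 = a then (if k.2 then 1 else -1)
  else if k.2 then (x k.1 : ℂ) else ((x k.1)⁻¹ : Circle)

/-- The eigenvalues `y_j^{±1}` of the class in `Sp_{2b}(ℂ)`. -/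
noncomputable def beta {b : ℕ} (y : Fin b → Circle) (k : Fin b × Bool) : ℂ :=
  if k.2 then (y k.1 : ℂ) else ((y k.1)⁻¹ : Circle)

open Classical in
/-- The eigenvalues of the representation `R = St ⊗ St` at the prime `p`; the primes of `S` are omitted. -/
noncomputable def evR {a b : ℕ} (S : Finset Nat.Primes) (split : Nat.Primes → Bool) (p : Nat.Primes) (x : Tor a b)
    (k : (Fin a × Bool) × (Fin b × Bool)) : ℂ :=
  if p ∈ S then 0 else alpha (split p) x.1 k.1 * beta x.2 k.2

/-- The L-function `L^S(s, A, R)` of a family `A` of classes; for the Satake classes of `π_V` and `π_W` this is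
`L^S(s, π_V ⊠ π_W)`. -/
noncomputable def LR {a b : ℕ} (S : Finset Nat.Primes) (split : Nat.Primes → Bool) (A : Nat.Primes → Tor a b)
    (s : ℂ) : ℂ :=
  LEul (fun p => evR S split p (A p)) s

/-- The twist `L^S(s, A × B, R)` by an Euler product `B`. -/
noncomputable def LRB {a b d : ℕ} (S : Finset Nat.Primes) (split : Nat.Primes → Bool) (A : Nat.Primes → Tor a b)
    (B : Nat.Primes → Fin d → ℂ) (s : ℂ) : ℂ :=
  LEul (fun p (k : ((Fin a × Bool) × (Fin b × Bool)) × Fin d) => evR S split p (A p) k.1 * B p k.2) s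

section General
variable {X I : Type} {m : I → ℕ}

/-- The trace of `ρ_i` at a class, the sum of the eigenvalues. -/
noncomputable def tr (ev : ∀ i, X → Fin (m i) → ℂ) (i : I) (x : X) : ℂ := ∑ k, ev i x k

open Classical in
/-- The eigenvalues of `ρ_i` at the prime `p`; the primes of `S` are omitted. -/
noncomputable def evS (S : Finset Nat.Primes) (ev : ∀ i, X → Fin (m i) → ℂ) (i : I) (p : Nat.Primes) (x : X)
    (k : Fin (m i)) : ℂ :=
  if p ∈ S then 0 else ev i x k

/-- The L-function `L^S(s, A, ρ_i)`. -/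
noncomputable def LX (S : Finset Nat.Primes) (ev : ∀ i, X → Fin (m i) → ℂ) (A : Nat.Primes → X) (i : I) (s : ℂ) : ℂ :=
  LEul (fun p => evS S ev i p (A p)) s

/-- The twist `L^S(s, A × B, ρ_i)` by an Euler product `B`. -/
noncomputable def LXB {d : ℕ} (S : Finset Nat.Primes) (ev : ∀ i, X → Fin (m i) → ℂ) (A : Nat.Primes → X)
    (B : Nat.Primes → Fin d → ℂ) (i : I) (s : ℂ) : ℂ :=
  LEul (fun p (k : Fin (m i) × Fin d) => evS S ev i p (A p) k.1 * B p k.2) s

end General

end Pool.Agent.H4.GG
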