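import Pool.Agent.H4.GG.Mix
import Pool.Agent.H4.GG.Defs

/-! The mixing theorem and the orders. -/

set_option autoImplicit false

namespace Pool.Agent.H4.GG

open Pool.Agent.H70.CS Complex Filter Topology Finset

section
variable {K : Type} [Fintype K]

theorem hasProd_LEul {e : Nat.Primes → K → ℂ} (he : ∀ p k, ‖e p k‖ ≤ 1) {s : ℂ} (hs : 1 < s.re) :
    HasProd (fun p : Nat.Primes => ∏ k, (1 - e p k * ((p : ℕ) : ℂ) ^ (-s))⁻¹)
      (Complex.exp (∑ k, lam (fun p => e p k) s)) := by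
  have h1 : HasSum (fun p : Nat.Primes => ∑ k, -Complex.log (1 - e p k * ((p : ℕ) : ℂ) ^ (-s)))
      (∑ k, lam (fun p => e p k) s) := by
    refine hasSum_sum fun k _ => ?_
    exact (summable_lam (fun p => he p k) hs).hasSum
  have h2 := h1.cexp
  refine h2.congr_fun ?_ |> fun h => h
  intro p
  simp only [Function.comp_apply]
  rw [Complex.exp_sum]
  refine Finset.prod_congr rfl fun k _ => ?_
  rw [Complex.exp_neg, Complex.exp_log (one_sub_ne_zero (he p k) p hs)]

theorem LEul_eq {e : Nat.Primes → K → ℂ} (he : ∀ p k, ‖e p k‖ ≤ 1) {s : ℂ} (hs : 1 < s.re) :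
    LEul e s = Complex.exp (∑ k, lam (fun p => e p k) s) :=
  (hasProd_LEul he hs).tprod_eq

end

lemma thin_of_wt {c : ℕ} {T : Set Nat.Primes}
    (h : ∃ C : ℝ, ∀ N : ℕ, |(cnt T N : ℝ) - ∑ q ∈ range N, wt c q| ≤ C * (N : ℝ) ^ (1 / 4 : ℝ)) : Thin c T := by
  classical
  obtain ⟨C, hC⟩ := h
  set D : ℝ := ∑ q ∈ range (c ^ 2), c * (q : ℝ) ^ (-(1 / 2) : ℝ) with hD
  have hD0 : 0 ≤ D := sum_nonneg fun q _ => by positivity
  refine ⟨C + D, fun N => ?_⟩
  have h1 : |∑ q ∈ range N, wt c q - c * ∑ q ∈ (range N).filter Nat.Prime, (q : ℝ) ^ (-(1 / 2) : ℝ)| ≤ D := by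
    rw [mul_sum, sum_filter, ← sum_sub_distrib]
    have h2 : ∀ q ∈ range N, |wt c q - (if q.Prime then c * (q : ℝ) ^ (-(1 / 2) : ℝ) else 0)| ≤
        (if q < c ^ 2 then c * (q : ℝ) ^ (-(1 / 2) : ℝ) else 0) := by
      intro q _
      unfold wt
      by_cases hq : q.Prime
      · by_cases hc : c ^ 2 ≤ q
        · rw [if_pos ⟨hq, hc⟩, if_pos hq, sub_self, abs_zero, if_neg (by omega)]
        · rw [if_neg (fun h => hc h.2), if_pos hq, if_pos (by omega), zero_sub, abs_neg,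
            abs_of_nonneg (by positivity)]
      · rw [if_neg (fun h => hq h.1), if_neg hq, sub_self, abs_zero]
        split_ifs
        · positivity
        · exact le_refl _
    refine (abs_sum_le_sum_abs _ _).trans ((sum_le_sum h2).trans ?_)
    rw [← sum_filter]
    refine sum_le_sum_of_subset_of_nonneg (fun q hq => ?_) fun q _ _ => by positivity
    rw [Finset.mem_filter] at hq
    exact Finset.mem_range.2 hq.2
  rcases Nat.eq_zero_or_pos N with rfl | hN
  · have h3 : cnt T 0 = 0 := by unfold cnt; simp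
    rw [h3]
    simp
  · have hN1 : (1 : ℝ) ≤ (N : ℝ) ^ (1 / 4 : ℝ) :=
      Real.one_le_rpow (by exact_mod_cast hN) (by norm_num)
    have h4 := hC N
    have h5 : (cnt T N : ℝ) - c * ∑ q ∈ (range N).filter Nat.Prime, (q : ℝ) ^ (-(1 / 2) : ℝ) =
        ((cnt T N : ℝ) - ∑ q ∈ range N, wt c q) +
        (∑ q ∈ range N, wt c q - c * ∑ q ∈ (range N).filter Nat.Prime, (q : ℝ) ^ (-(1 / 2) : ℝ)) := by ring
    rw [h5]
    refine (abs_add_le _ _).trans ?_
    nlinarith

/-- **The mixing theorem.** -/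
theorem mixing {X I : Type} [Countable I] (K : I → Type) [∀ i, Fintype (K i)]
    (ev : ∀ i, Nat.Primes → X → K i → ℂ) (hev : ∀ i p x k, ‖ev i p x k‖ ≤ 1) (P Q : Nat.Primes → X) (c : ℕ) :
    ∃ T : Set Nat.Primes, Thin c T ∧ ∀ A : Nat.Primes → X, (∀ p, p ∈ T → A p = Q p) → (∀ p, p ∉ T → A p = P p) →
      ∀ i, ∃ g : ℂ → ℂ, DifferentiableOn ℂ g (HP (1 / 4)) ∧ ∀ s : ℂ, 1 < s.re →
        LEul (fun p => ev i p (A p)) s = LEul (fun p => ev i p (P p)) s *
          (LEul (fun p => ev i p (Q p)) (s + 1 / 2) / LEul (fun p => ev i p (P p)) (s + 1 / 2)) ^ c *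
          Complex.exp (g s) := by
  obtain ⟨T, hT1, hT2, hT3⟩ := exists_thin c (κ := (Σ i : I, K i) × Bool)
    (fun x p => ev x.1.1 p (if x.2 then Q p else P p) x.1.2) (fun x p => hev _ _ _ _)
  refine ⟨T, thin_of_wt hT1, fun A hA1 hA2 i => ?_⟩
  have h1 : ∀ k : K i, (fun s => lam (fun p => ev i p (A p) k) s - lam (fun p => ev i p (P p) k) s -
      c * (lam (fun p => ev i p (Q p) k) (s + 1 / 2) - lam (fun p => ev i p (P p) k) (s + 1 / 2))) ∈ Q4 := by
    intro k
    refine core c hT2 (fun p => hev _ _ _ _) (fun p => hev _ _ _ _) (fun p hp => by rw [hA1 p hp])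
      (fun p hp => by rw [hA2 p hp]) ?_ ?_
    · have := hT3 (⟨i, k⟩, true)
      simpa using this
    · have := hT3 (⟨i, k⟩, false)
      simpa using this
  have h2 : ∑ k : K i, (fun s => lam (fun p => ev i p (A p) k) s - lam (fun p => ev i p (P p) k) s -
      c * (lam (fun p => ev i p (Q p) k) (s + 1 / 2) - lam (fun p => ev i p (P p) k) (s + 1 / 2))) ∈ Q4 :=
    Submodule.sum_mem _ fun k _ => h1 k
  obtain ⟨g, hg, hge⟩ := h2
  refine ⟨g, hg, fun s hs => ?_⟩
  have hs2 : 1 < (s + 1 / 2).re := by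
    have : (s + 1 / 2).re = s.re + 1 / 2 := by simp
    rw [this]; linarith
  have h3 := hge s hs
  rw [LEul_eq (fun p k => hev _ _ _ _) hs, LEul_eq (fun p k => hev _ _ _ _) hs,
    LEul_eq (fun p k => hev _ _ _ _) hs2, LEul_eq (fun p k => hev _ _ _ _) hs2, ← h3, ← Complex.exp_sub,
    ← Complex.exp_nat_mul, ← Complex.exp_add, ← Complex.exp_add]
  congr 1
  simp only [Finset.sum_apply, Finset.sum_sub_distrib, ← Finset.mul_sum]
  ring

end Pool.Agent.H4.GG
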