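import Pool.Agent.H4.GG.Law

/-! Independence of the central orders. -/

set_option autoImplicit false

namespace Pool.Agent.H4.GG

open Pool.Agent.H70.CS Filter Topology MeasureTheory ComplexConjugate Finset

section measure
variable {X : Type} [TopologicalSpace X] [CompactSpace X] [MeasurableSpace X] [BorelSpace X]
  (μ : Measure X) [IsProbabilityMeasure μ]

/-- a change of the density -/
lemma exists_density (h : X → ℝ) (hc : Continuous h) (h1 : ∀ x, h x ≤ 1) (h0 : ∫ x, h x ∂μ = 0) :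
    ∃ ν : Measure X, IsProbabilityMeasure ν ∧ ∀ f : X → ℂ, Continuous f →
      ∫ x, f x ∂ν = ∫ x, f x ∂μ - ∫ x, f x * (h x : ℂ) ∂μ := by
  set dd : X → NNReal := fun x => Real.toNNReal (1 - h x) with hdd
  have hm : Measurable dd := (continuous_real_toNNReal.comp (continuous_const.sub hc)).measurable
  have hint : Integrable (fun x => 1 - h x) μ := by
    obtain ⟨C, hC⟩ := isCompact_univ.exists_bound_of_continuousOn (continuous_const.sub hc : Continuous
      fun x => 1 - h x).continuousOn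
    exact Integrable.mono' (integrable_const C) (continuous_const.sub hc).aestronglyMeasurable
      (Eventually.of_forall fun x => hC x (Set.mem_univ x))
  have hinth : Integrable h μ := by
    obtain ⟨C, hC⟩ := isCompact_univ.exists_bound_of_continuousOn hc.continuousOn
    exact Integrable.mono' (integrable_const C) hc.aestronglyMeasurable
      (Eventually.of_forall fun x => hC x (Set.mem_univ x))
  refine ⟨μ.withDensity fun x => (dd x : ENNReal), ⟨?_⟩, fun f hf => ?_⟩
  · rw [withDensity_apply _ MeasurableSet.univ, Measure.restrict_univ]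
    have e1 : ∫⁻ x, (dd x : ENNReal) ∂μ = ENNReal.ofReal (∫ x, (1 - h x) ∂μ) := by
      rw [ofReal_integral_eq_lintegral_ofReal hint (Eventually.of_forall fun x => by
        show (0 : ℝ) ≤ 1 - h x
        linarith [h1 x])]
      rfl
    rw [e1, integral_sub (integrable_const _) hinth, h0]
    simp
  · rw [integral_withDensity_eq_integral_smul hm,
      ← integral_sub (integrable_cont' μ f hf) (integrable_cont' μ (fun x => f x * (h x : ℂ))
        (hf.mul (Complex.continuous_ofReal.comp hc)))]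
    refine integral_congr_ae (Eventually.of_forall fun x => ?_)
    show (dd x) • f x = f x - f x * (h x : ℂ)
    have e2 : ((dd x : NNReal) : ℝ) = 1 - h x := Real.coe_toNNReal _ (by linarith [h1 x])
    rw [NNReal.smul_def, e2, Complex.real_smul]
    push_cast
    ring

end measure

section
variable {K : Type} [Fintype K]

/-- a variant of `mix_order` -/
theorem mix_order' {eP eQ eA : Nat.Primes → K → ℂ}
    {FP W g : ℂ → ℂ} {c : ℕ} (hg : DifferentiableOn ℂ g (HP (1 / 4)))
    (hA : ∀ s : ℂ, 1 < s.re → LEul eA s = LEul eP s * (LEul eQ (s + 1 / 2) / LEul eP (s + 1 / 2)) ^ c *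
      Complex.exp (g s))
    (hFP : IsCont FP (LEul eP)) (hW : MeromorphicOn W (HP (3 / 4)))
    (hW2 : ∀ s : ℂ, 1 < s.re → W s = LEul eQ s ^ c) :
    ∃ G : ℂ → ℂ, IsCont G (LEul eA) ∧ ∀ s : ℂ, 1 / 4 < s.re →
      meromorphicOrderAt G s = meromorphicOrderAt FP s +
        (meromorphicOrderAt W (s + 1 / 2) - c * meromorphicOrderAt FP (s + 1 / 2)) := by
  have hre : ∀ s : ℂ, (s + 1 / 2).re = s.re + 1 / 2 := fun s => by simp
  have m1 : ∀ s : ℂ, 1 / 4 < s.re → MeromorphicAt FP s := fun s hs => hFP.1 s hs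
  have m2 : ∀ s : ℂ, 1 / 4 < s.re → MeromorphicAt (fun z => W (z + 1 / 2)) s := fun s hs =>
    (hW (s + 1 / 2) (show 3 / 4 < (s + 1 / 2).re by rw [hre]; linarith)).comp_analyticAt
      (g := fun z => z + 1 / 2) (by fun_prop)
  have m3 : ∀ s : ℂ, 1 / 4 < s.re → MeromorphicAt (fun z => FP (z + 1 / 2)) s := fun s hs =>
    (hFP.1 (s + 1 / 2) (show 1 / 4 < (s + 1 / 2).re by rw [hre]; linarith)).comp_analyticAt
      (g := fun z => z + 1 / 2) (by fun_prop)
  have m4 : ∀ s : ℂ, 1 / 4 < s.re → AnalyticAt ℂ g s := fun s hs =>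
    hg.analyticAt ((isOpen_HP _).mem_nhds hs)
  have m5 : ∀ s : ℂ, 1 / 4 < s.re → MeromorphicAt (fun z => Complex.exp (g z)) s := fun s hs =>
    (m4 s hs).cexp.meromorphicAt
  refine ⟨FP * ((fun z => W (z + 1 / 2)) / (fun z => FP (z + 1 / 2)) ^ c) * fun z => Complex.exp (g z),
    ⟨fun s hs => ?_, fun s hs => ?_⟩, fun s hs => ?_⟩
  · exact ((m1 s hs).mul ((m2 s hs).div ((m3 s hs).pow c))).mul (m5 s hs)
  · have hs2 : 1 < (s + 1 / 2).re := by rw [hre]; linarith
    simp only [Pi.mul_apply, Pi.pow_apply, Pi.div_apply]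
    rw [hA s hs, hFP.2 s hs, hW2 _ hs2, hFP.2 _ hs2, div_pow]
  · rw [meromorphicOrderAt_mul ((m1 s hs).mul ((m2 s hs).div ((m3 s hs).pow c))) (m5 s hs),
      meromorphicOrderAt_mul (m1 s hs) ((m2 s hs).div ((m3 s hs).pow c)),
      meromorphicOrderAt_div (m2 s hs) ((m3 s hs).pow c), meromorphicOrderAt_pow (m3 s hs),
      order_exp (m4 s hs), add_zero]
    have a1 : meromorphicOrderAt (fun z => W (z + 1 / 2)) s = meromorphicOrderAt W (s + 1 / 2) :=
      meromorphicOrderAt_comp_add_const_eq_meromorphicOrderAt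
    have a2 : meromorphicOrderAt (fun z => FP (z + 1 / 2)) s = meromorphicOrderAt FP (s + 1 / 2) :=
      meromorphicOrderAt_comp_add_const_eq_meromorphicOrderAt
    rw [a1, a2]

/-- the L-functions of a family with a given mean value of the trace -/
theorem law_formula {d : ℕ} {e : Nat.Primes → K → ℂ} (he : ∀ p k, ‖e p k‖ ≤ 1)
    {B : Nat.Primes → Fin d → ℂ} (hB : ∀ p j, ‖B p j‖ ≤ 1) (S : Finset Nat.Primes) (f : Nat.Primes → ℂ)
    {M : ℝ} (hfM : ∀ p, ‖f p‖ ≤ M) (hS : ∀ p, p ∉ S → ∑ k, e p k = f p) (w : ℂ)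
    (hf : ∀ j, dir (fun p => B p j * (f p - w)) ∈ H70.CS.Neg) (c : ℕ) (r : ℤ) (hcr : (c : ℂ) * w = r) :
    ∃ h : ℂ → ℂ, DifferentiableOn ℂ h (HP (1 / 2)) ∧ ∀ s : ℂ, 1 < s.re →
      LEul (fun p (k : K × Fin d) => e p k.1 * B p k.2) s ^ c = LEul B s ^ r * Complex.exp (h s) := by
  classical
  have heB : ∀ p (k : K × Fin d), ‖e p k.1 * B p k.2‖ ≤ 1 := fun p k => by
    rw [norm_mul]
    exact mul_le_one₀ (he _ _) (norm_nonneg _) (hB _ _)
  obtain ⟨M', hM'⟩ : ∃ M' : ℕ, ∀ p : Nat.Primes, M' ≤ p → p ∉ S := by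
    refine ⟨(S.sup fun p : Nat.Primes => (p : ℕ)) + 1, fun p hp hpS => ?_⟩
    have h1 : (p : ℕ) ≤ S.sup fun p : Nat.Primes => (p : ℕ) :=
      Finset.le_sup (f := fun p : Nat.Primes => (p : ℕ)) hpS
    omega
  have n1 : ∑ k : K × Fin d, (lam (fun p => e p k.1 * B p k.2) - dir (fun p => e p k.1 * B p k.2)) ∈
      H70.CS.Neg := Submodule.sum_mem _ fun k _ => lam_sub_dir fun p => heB p k
  have n2 : ∑ j : Fin d, (lam (fun p => B p j) - dir (fun p => B p j)) ∈ H70.CS.Neg :=
    Submodule.sum_mem _ fun j _ => lam_sub_dir fun p => hB p j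
  have n3 : ∑ j : Fin d, dir (fun p => (∑ k, e p k - f p) * B p j) ∈ H70.CS.Neg := by
    refine Submodule.sum_mem _ fun j _ => dir_finite M' fun p hp => ?_
    rw [hS p (hM' p hp), sub_self, zero_mul]
  have n4 : ∑ j : Fin d, dir (fun p => B p j * (f p - w)) ∈ H70.CS.Neg :=
    Submodule.sum_mem _ fun j _ => hf j
  obtain ⟨h, hh, hhe⟩ := Submodule.smul_mem _ (c : ℂ) (Submodule.add_mem _ (Submodule.add_mem _
    (Submodule.sub_mem _ n1 (Submodule.smul_mem _ w n2)) n3) n4)
  refine ⟨h, hh, fun s hs => ?_⟩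
  have h1 := hhe s hs
  rw [LEul_eq heB hs, LEul_eq hB hs, ← h1, ← Complex.exp_int_mul, ← Complex.exp_add, ← Complex.exp_nat_mul]
  congr 1
  simp only [Pi.add_apply, Pi.sub_apply, Pi.smul_apply, smul_eq_mul, Finset.sum_apply, sum_sub_distrib]
  have key : ∑ k : K × Fin d, dir (fun p => e p k.1 * B p k.2) s =
      w * ∑ j : Fin d, dir (fun p => B p j) s + ∑ j : Fin d, dir (fun p => (∑ k, e p k - f p) * B p j) s +
        ∑ j : Fin d, dir (fun p => B p j * (f p - w)) s := by
    have a1 : HasSum (fun p : Nat.Primes => ∑ k : K × Fin d, e p k.1 * B p k.2 * ((p : ℕ) : ℂ) ^ (-s))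
        (∑ k : K × Fin d, dir (fun p => e p k.1 * B p k.2) s) :=
      hasSum_sum fun k _ => (summable_dir (fun p => heB p k) hs).hasSum
    have a2 : HasSum (fun p : Nat.Primes => ∑ j : Fin d, B p j * ((p : ℕ) : ℂ) ^ (-s))
        (∑ j : Fin d, dir (fun p => B p j) s) :=
      hasSum_sum fun j _ => (summable_dir (fun p => hB p j) hs).hasSum
    have hM0 : 0 ≤ M := by
      by_contra hcon
      push Not at hcon
      have := hfM ⟨2, Nat.prime_two⟩
      have := norm_nonneg (f ⟨2, Nat.prime_two⟩)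
      linarith
    have hb3 : ∀ (j : Fin d) p, ‖(∑ k, e p k - f p) * B p j‖ ≤ (Fintype.card K + M) * 1 := by
      intro j p
      rw [norm_mul]
      refine mul_le_mul ((norm_sub_le _ _).trans (add_le_add ?_ (hfM p))) (hB p j) (norm_nonneg _)
        (by positivity)
      refine (norm_sum_le _ _).trans ((sum_le_sum fun k _ => he p k).trans ?_)
      simp
    have hb4 : ∀ (j : Fin d) p, ‖B p j * (f p - w)‖ ≤ 1 * (M + ‖w‖) := by
      intro j p
      rw [norm_mul]
      exact mul_le_mul (hB p j) ((norm_sub_le _ _).trans (add_le_add (hfM p) le_rfl)) (norm_nonneg _)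
        (by norm_num)
    have a3 : HasSum (fun p : Nat.Primes => ∑ j : Fin d, (∑ k, e p k - f p) * B p j * ((p : ℕ) : ℂ) ^ (-s))
        (∑ j : Fin d, dir (fun p => (∑ k, e p k - f p) * B p j) s) :=
      hasSum_sum fun j _ => (summable_dir (hb3 j) hs).hasSum
    have a4 : HasSum (fun p : Nat.Primes => ∑ j : Fin d, B p j * (f p - w) * ((p : ℕ) : ℂ) ^ (-s))
        (∑ j : Fin d, dir (fun p => B p j * (f p - w)) s) :=
      hasSum_sum fun j _ => (summable_dir (hb4 j) hs).hasSum
    refine a1.unique ?_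
    refine (((a2.mul_left w).add a3).add a4).congr_fun ?_ |> fun h => h
    intro p
    rw [Fintype.sum_prod_type, mul_sum, ← sum_add_distrib, ← sum_add_distrib, sum_comm]
    refine sum_congr rfl fun j _ => ?_
    have h5 : ∀ k, e p (k, j).1 * B p (k, j).2 * ((p : ℕ) : ℂ) ^ (-s) =
        e p k * (B p j * ((p : ℕ) : ℂ) ^ (-s)) := fun k => by ring
    rw [sum_congr rfl fun k _ => h5 k, ← sum_mul]
    ring
  rw [key, ← hcr]
  ring

end

end Pool.Agent.H4.GG
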