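import Pool.Agent.H4.GG.Ind

/-! Independence of the central orders: the theorem. -/

set_option autoImplicit false

namespace Pool.Agent.H4.GG

open Pool.Agent.H70.CS Filter Topology MeasureTheory ComplexConjugate Finset

section
variable {X : Type} {I : Type} {m : I → ℕ} {ev : ∀ i, X → Fin (m i) → ℂ} (hev : ∀ i x k, ‖ev i x k‖ ≤ 1)

include hev

lemma norm_evS (S : Finset Nat.Primes) (i : I) (p : Nat.Primes) (x : X) (k : Fin (m i)) :
    ‖evS S ev i p x k‖ ≤ 1 := by
  unfold evS
  split_ifs
  · simp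
  · exact hev _ _ _

lemma norm_evSB {d : ℕ} (S : Finset Nat.Primes) {B : Nat.Primes → Fin d → ℂ} (hB : ∀ p j, ‖B p j‖ ≤ 1)
    (i : I) (p : Nat.Primes) (x : X) (k : Fin (m i) × Fin d) :
    ‖evS S ev i p x k.1 * B p k.2‖ ≤ 1 := by
  rw [norm_mul]
  exact mul_le_one₀ (norm_evS hev _ _ _ _ _) (norm_nonneg _) (hB _ _)

lemma norm_tr (i : I) (x : X) : ‖tr ev i x‖ ≤ m i := by
  unfold tr
  refine (norm_sum_le _ _).trans ((sum_le_sum fun k _ => hev i x k).trans ?_)
  simp

end

/-- **The central orders of the L-functions of finitely many irreducible representations can be prescribed.** -/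
theorem independence {X : Type} [TopologicalSpace X] [CompactSpace X] [MeasurableSpace X] [BorelSpace X]
    (μ : Measure X) [IsProbabilityMeasure μ] {I : Type} [Countable I] {m : I → ℕ}
    {ev : ∀ i, X → Fin (m i) → ℂ} (hev : ∀ i x k, ‖ev i x k‖ ≤ 1) (hcont : ∀ i, Continuous (tr ev i))
    (h0 : ∀ i, ∫ x, tr ev i x ∂μ = 0)
    (horth : ∀ i, ∫ x, tr ev i x * conj (tr ev i x) ∂μ = 1)
    (horth' : ∀ i k, i ≠ k → ∫ x, tr ev i x * conj (tr ev k x) ∂μ = 0)
    (S : Finset Nat.Primes) (P : Nat.Primes → X) {J : Type} [Countable J] (d : J → ℕ)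
    (B : ∀ j, Nat.Primes → Fin (d j) → ℂ) (hB : ∀ j p k, ‖B j p k‖ ≤ 1)
    (r : I →₀ ℤ) (hr : ∀ x, conj (∑ i ∈ r.support, (r i : ℂ) * tr ev i x) = ∑ i ∈ r.support, (r i : ℂ) * tr ev i x)
    (c : ℕ) (hc0 : 0 < c) (hrc : ∑ i ∈ r.support, (r i).natAbs * m i ≤ c) :
    ∃ (T : Set Nat.Primes) (A : Nat.Primes → X), Thin c T ∧ (∀ p, p ∉ T → A p = P p) ∧
      (∀ i (F : ℂ → ℂ), IsCont F (LX S ev P i) → (∀ s : ℂ, s.re = 1 → meromorphicOrderAt F s = 0) →
        ∃ G : ℂ → ℂ, IsCont G (LX S ev A i) ∧
          meromorphicOrderAt G (1 / 2) = meromorphicOrderAt F (1 / 2) + r i ∧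
          ∀ s : ℂ, 1 / 2 ≤ s.re → s ≠ 1 / 2 → meromorphicOrderAt G s = meromorphicOrderAt F s) ∧
      ∀ i j (E F : ℂ → ℂ), IsCont E (LEul (B j)) → IsCont F (LXB S ev P (B j) i) →
        (∀ s : ℂ, s.re = 1 → meromorphicOrderAt E s = 0 ∧ meromorphicOrderAt F s = 0) →
        ∃ G : ℂ → ℂ, IsCont G (LXB S ev A (B j) i) ∧
          ∀ s : ℂ, 1 / 2 ≤ s.re → meromorphicOrderAt G s = meromorphicOrderAt F s := by
  classical
  have hcR : (0 : ℝ) < c := by exact_mod_cast hc0
  have hcC : (c : ℂ) ≠ 0 := by exact_mod_cast hc0.ne'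
  set hC : X → ℂ := fun x => ∑ i ∈ r.support, (r i : ℂ) * tr ev i x with hhC
  set h : X → ℝ := fun x => (hC x).re / c with hh
  have hhr : ∀ x, ((h x : ℝ) : ℂ) = hC x / c := by
    intro x
    rw [hh]; simp only
    have h1 := Complex.conj_eq_iff_re.1 (hr x)
    push_cast
    rw [h1]
  have hCc : Continuous hC := continuous_finset_sum _ fun i _ => continuous_const.mul (hcont i)
  have hhc : Continuous h := (Complex.continuous_re.comp hCc).div_const _
  have hbound : ∀ x, ‖hC x‖ ≤ c := by
    intro x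
    refine (norm_sum_le _ _).trans (le_trans (sum_le_sum fun i _ => ?_) (by exact_mod_cast hrc :
      (∑ i ∈ r.support, ((r i).natAbs : ℝ) * m i) ≤ c))
    rw [norm_mul, Complex.norm_intCast]
    have h1 : |(r i : ℝ)| = ((r i).natAbs : ℝ) := by
      rw [Nat.cast_natAbs]; push_cast; rfl
    rw [h1]
    exact mul_le_mul_of_nonneg_left (norm_tr hev i x) (by positivity)
  have hh1 : ∀ x, h x ≤ 1 := by
    intro x
    rw [hh]; simp only
    rw [div_le_one hcR]
    exact (Complex.re_le_norm _).trans (hbound x)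
  have hint : ∀ i, Integrable (tr ev i) μ := fun i => integrable_cont' μ _ (hcont i)
  have hh0 : ∫ x, h x ∂μ = 0 := by
    have h1 : ∫ x, ((h x : ℝ) : ℂ) ∂μ = 0 := by
      simp only [hhr]
      rw [integral_div, hhC]
      rw [integral_finsetSum _ fun i _ => (hint i).const_mul _]
      simp only [integral_const_mul, h0, mul_zero, sum_const_zero, zero_div]
    rw [integral_complex_ofReal] at h1
    exact_mod_cast h1
  obtain ⟨ν, hν, hνf⟩ := exists_density μ h hhc hh1 hh0
  have hw : ∀ i, (c : ℂ) * ∫ x, tr ev i x ∂ν = ((-(r i) : ℤ) : ℂ) := by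
    intro i
    rw [hνf _ (hcont i), h0 i, zero_sub]
    have h1 : ∫ x, tr ev i x * ((h x : ℝ) : ℂ) ∂μ = (r i : ℂ) / c := by
      have h2 : ∀ x, tr ev i x * ((h x : ℝ) : ℂ) =
          (∑ k ∈ r.support, (r k : ℂ) * (tr ev i x * conj (tr ev k x))) / c := by
        intro x
        have h3 : hC x = ∑ k ∈ r.support, (r k : ℂ) * conj (tr ev k x) := by
          rw [hhC]
          simp only
          rw [← hr x, map_sum]
          refine sum_congr rfl fun k _ => ?_
          rw [map_mul, map_intCast]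
        rw [hhr, h3, mul_div_assoc', mul_sum]
        congr 1
        refine sum_congr rfl fun k _ => ?_
        ring
      simp only [h2]
      rw [integral_div, integral_finsetSum _ fun k _ => (integrable_cont' μ
        (fun x => tr ev i x * conj (tr ev k x))
        ((hcont i).mul (Complex.continuous_conj.comp (hcont k)))).const_mul _]
      simp only [integral_const_mul]
      congr 1
      by_cases hi : i ∈ r.support
      · rw [sum_eq_single i]
        · rw [horth i, mul_one]
        · intro k _ hk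
          rw [horth' i k (Ne.symm hk), mul_zero]
        · intro hi'
          exact absurd hi hi'
      · rw [Finsupp.notMem_support_iff.1 hi, Int.cast_zero]
        refine sum_eq_zero fun k hk => ?_
        rw [horth' i k (fun hik => hi (hik ▸ hk)), mul_zero]
    rw [h1]
    push_cast
    field_simp
  -- the family Q
  have hf1 : ∀ i x, ‖tr ev i x / ((m i : ℂ) + 1)‖ ≤ 1 := by
    intro i x
    rw [norm_div]
    have h1 : ‖(m i : ℂ) + 1‖ = (m i : ℝ) + 1 := by
      have : (m i : ℂ) + 1 = (((m i : ℝ) + 1 : ℝ) : ℂ) := by push_cast; rfl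
      rw [this, Complex.norm_real, Real.norm_of_nonneg (by positivity)]
    rw [h1, div_le_one (by positivity)]
    have := norm_tr hev i x
    linarith
  obtain ⟨Q, hQ⟩ := exists_law_family ν (fun i x => tr ev i x / ((m i : ℂ) + 1))
    (fun i => (hcont i).div_const _) hf1 (P ⟨2, Nat.prime_two⟩) (J' := Option (Σ j, Fin (d j)))
    (fun b p => match b with
      | none => 1
      | some jk => B jk.1 p jk.2) (by
        rintro (_ | jk) p
        · show ‖(1 : ℂ)‖ ≤ 1
          simp
        · exact hB _ _ _)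
  have hQ' : ∀ i (b : Nat.Primes → ℂ), dir (fun p => b p * (tr ev i (Q p) / ((m i : ℂ) + 1) -
      ∫ x, tr ev i x / ((m i : ℂ) + 1) ∂ν)) ∈ H70.CS.Neg →
      dir (fun p => b p * (tr ev i (Q p) - ∫ x, tr ev i x ∂ν)) ∈ H70.CS.Neg := by
    intro i b hb
    have h1 := Submodule.smul_mem _ ((m i : ℂ) + 1) hb
    refine neg_of_eq h1 fun s _ => ?_
    rw [Pi.smul_apply, smul_eq_mul, ← dir_mul]
    congr 1
    funext p
    have hm : (m i : ℂ) + 1 ≠ 0 := by exact_mod_cast Nat.succ_ne_zero (m i)
    rw [integral_div]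
    field_simp
  let Kx : I × Option J → Type := fun x => match x.2 with
    | none => Fin (m x.1)
    | some j => Fin (m x.1) × Fin (d j)
  let inst : ∀ x, Fintype (Kx x) := fun x => match x with
    | (i, none) => inferInstanceAs (Fintype (Fin (m i)))
    | (i, some j) => inferInstanceAs (Fintype (Fin (m i) × Fin (d j)))
  let ee : ∀ x : I × Option J, Nat.Primes → X → Kx x → ℂ := fun x => match x with
    | (i, none) => fun p y k => evS S ev i p y k
    | (i, some j) => fun p y k => evS S ev i p y k.1 * B j p k.2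
  have hee : ∀ x p y k, ‖ee x p y k‖ ≤ 1 := by
    rintro ⟨i, _ | j⟩ p y k
    · exact norm_evS hev S i p y k
    · exact norm_evSB hev S (hB j) i p y k
  obtain ⟨T, hT, hmix⟩ := @mixing X (I × Option J) _ Kx inst ee hee P Q c
  set A : Nat.Primes → X := fun p => if p ∈ T then Q p else P p with hA
  have hre : ∀ s : ℂ, (s + 1 / 2).re = s.re + 1 / 2 := fun s => by simp
  have hres := hmix A (fun p hp => by rw [hA]; simp only [if_pos hp])
    (fun p hp => by rw [hA]; simp only [if_neg hp])
  have hSsum : ∀ i (p : Nat.Primes), p ∉ S → ∑ k, evS S ev i p (Q p) k = tr ev i (Q p) := by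
    intro i p hp
    unfold tr evS
    simp only [if_neg hp]
  refine ⟨T, A, hT, fun p hp => by rw [hA]; simp only [if_neg hp], fun i F hF hF1 => ?_,
    fun i j E FB hE hFB h11 => ?_⟩
  · obtain ⟨g, hg, hgA⟩ := hres (i, none)
    obtain ⟨k, hk, hke⟩ := law_formula (K := Fin (m i)) (e := fun p => evS S ev i p (Q p))
      (fun p k => norm_evS hev _ _ _ _ _) (B := fun _ (_ : Fin 1) => (1 : ℂ)) (fun _ _ => by simp) S
      (fun p => tr ev i (Q p)) (fun p => norm_tr hev i _) (hSsum i) (∫ x, tr ev i x ∂ν)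
      (fun _ => hQ' i (fun _ => 1) (hQ i none)) c (-(r i)) (hw i)
    set W : ℂ → ℂ := (riemannZeta ^ (-(r i))) * fun s => Complex.exp (k s) with hW
    have hWm : ∀ s : ℂ, 1 / 2 < s.re → MeromorphicAt (fun s => Complex.exp (k s)) s := fun s hs =>
      (hk.analyticAt ((isOpen_HP _).mem_nhds hs)).cexp.meromorphicAt
    obtain ⟨G, hG, hGo⟩ := mix_order' (eP := fun p => evS S ev i p (P p)) (eQ := fun p => evS S ev i p (Q p))
      (eA := fun p => evS S ev i p (A p)) (FP := F) (W := W) (g := g)
      (c := c) hg (fun s hs => hgA s hs) hF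
      (fun s hs => ((zeta_meromorphicAt s).zpow _).mul (hWm s (by
        have : (3 / 4 : ℝ) < s.re := hs
        linarith)))
      (fun s hs => by
        rw [hW]
        simp only [Pi.mul_apply, Pi.pow_apply]
        rw [LEul_one, hke s hs, LEul_zeta hs])
    have hord : ∀ s : ℂ, 1 ≤ s.re → meromorphicOrderAt W s = ((-(r i) : ℤ) : WithTop ℤ) *
        meromorphicOrderAt riemannZeta s := by
      intro s hs
      rw [hW, meromorphicOrderAt_mul ((zeta_meromorphicAt s).zpow _) (hWm s (by linarith)),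
        meromorphicOrderAt_zpow (zeta_meromorphicAt s),
        order_exp (hk.analyticAt ((isOpen_HP _).mem_nhds (show 1 / 2 < s.re by linarith))), add_zero]
    have hF2 : ∀ s : ℂ, 1 ≤ s.re → meromorphicOrderAt F s = 0 := by
      intro s hs
      rcases hs.lt_or_eq with h1 | h1
      · exact order_right (e := fun p => evS S ev i p (P p)) (fun p k => norm_evS hev _ _ _ _ _) hF.2 h1
      · exact hF1 s h1.symm
    refine ⟨G, hG, ?_, fun s hs hne => ?_⟩
    · have e1 : (1 / 2 : ℂ) + 1 / 2 = 1 := by norm_num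
      have e2 : (1 / 4 : ℝ) < (1 / 2 : ℂ).re := by norm_num
      rw [hGo _ e2, e1, hord 1 (by simp), hF2 1 (by simp), order_zeta_one, mul_zero, sub_zero,
        ← WithTop.coe_mul]
      congr 2
      ring
    · have h5 : 1 ≤ (s + 1 / 2).re := by rw [hre]; linarith
      rw [hGo s (by linarith), hord _ h5, hF2 _ h5,
        order_zeta_ne h5 (fun h => hne (by linear_combination h))]
      simp
  · obtain ⟨g, hg, hgA⟩ := hres (i, some j)
    obtain ⟨k, hk, hke⟩ := law_formula (K := Fin (m i)) (e := fun p => evS S ev i p (Q p))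
      (fun p k => norm_evS hev _ _ _ _ _) (hB j) S
      (fun p => tr ev i (Q p)) (fun p => norm_tr hev i _) (hSsum i) (∫ x, tr ev i x ∂ν)
      (fun k => hQ' i (fun p => B j p k) (hQ i (some ⟨j, k⟩))) c (-(r i)) (hw i)
    set W : ℂ → ℂ := (E ^ (-(r i))) * fun s => Complex.exp (k s) with hW
    have hWm : ∀ s : ℂ, 1 / 2 < s.re → MeromorphicAt (fun s => Complex.exp (k s)) s := fun s hs =>
      (hk.analyticAt ((isOpen_HP _).mem_nhds hs)).cexp.meromorphicAt
    have hEm : ∀ s : ℂ, 3 / 4 < s.re → MeromorphicAt E s := fun s hs =>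
      hE.1 s (show 1 / 4 < s.re by linarith)
    obtain ⟨G, hG, hGo⟩ := mix_order'
      (eP := fun p (k : Fin (m i) × Fin (d j)) => evS S ev i p (P p) k.1 * B j p k.2)
      (eQ := fun p (k : Fin (m i) × Fin (d j)) => evS S ev i p (Q p) k.1 * B j p k.2)
      (eA := fun p (k : Fin (m i) × Fin (d j)) => evS S ev i p (A p) k.1 * B j p k.2)
      (FP := FB) (W := W) (g := g)
      (c := c) hg (fun s hs => hgA s hs) hFB
      (fun s hs => ((hEm s hs).zpow _).mul (hWm s (by
        have : (3 / 4 : ℝ) < s.re := hs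
        linarith)))
      (fun s hs => by
        rw [hW]
        simp only [Pi.mul_apply, Pi.pow_apply]
        rw [hke s hs, hE.2 s hs])
    have hE2 : ∀ s : ℂ, 1 ≤ s.re → meromorphicOrderAt E s = 0 := by
      intro s hs
      rcases hs.lt_or_eq with h1 | h1
      · exact order_right (e := B j) (hB j) hE.2 h1
      · exact (h11 s h1.symm).1
    have hord : ∀ s : ℂ, 1 ≤ s.re → meromorphicOrderAt W s = 0 := by
      intro s hs
      rw [hW, meromorphicOrderAt_mul ((hEm s (by linarith)).zpow _) (hWm s (by linarith)),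
        meromorphicOrderAt_zpow (hEm s (by linarith)),
        order_exp (hk.analyticAt ((isOpen_HP _).mem_nhds (show 1 / 2 < s.re by linarith))), add_zero,
        hE2 s hs, mul_zero]
    have hF2 : ∀ s : ℂ, 1 ≤ s.re → meromorphicOrderAt FB s = 0 := by
      intro s hs
      rcases hs.lt_or_eq with h1 | h1
      · exact order_right
          (e := fun p (k : Fin (m i) × Fin (d j)) => evS S ev i p (P p) k.1 * B j p k.2)
          (fun p k => norm_evSB hev S (hB j) i p _ k) hFB.2 h1
      · exact (h11 s h1.symm).2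
    refine ⟨G, hG, fun s hs => ?_⟩
    have h5 : 1 ≤ (s + 1 / 2).re := by rw [hre]; linarith
    rw [hGo s (by linarith), hord _ h5, hF2 _ h5]
    simp

end Pool.Agent.H4.GG
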