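import Pool.Agent.H4.GG.Main

/-! Families with a given law on a compact space. -/

set_option autoImplicit false

namespace Pool.Agent.H4.GG

open Pool.Agent.H70.CS Filter Topology MeasureTheory ComplexConjugate

section
variable {X : Type} [TopologicalSpace X] [CompactSpace X] [MeasurableSpace X] [BorelSpace X]
  (μ : Measure X) [IsProbabilityMeasure μ]

lemma integrable_cont' (f : X → ℂ) (hf : Continuous f) : Integrable f μ := by
  obtain ⟨C, hC⟩ := isCompact_univ.exists_bound_of_continuousOn hf.continuousOn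
  exact Integrable.mono' (integrable_const C) hf.aestronglyMeasurable
    (Eventually.of_forall fun x => hC x (Set.mem_univ x))

variable {J : Type} (f : J → X → ℂ) (hf : ∀ i, Continuous (f i)) (hf1 : ∀ i x, ‖f i x‖ ≤ 1)

include hf hf1

lemma norm_mean_le (i : J) : ‖∫ x, f i x ∂μ‖ ≤ 1 := by
  refine (norm_integral_le_of_norm_le_const (C := 1) (Eventually.of_forall fun y => hf1 i y)).trans ?_
  simp

lemma step_term (i : J) (D t : ℂ) (ht : ‖t‖ ≤ 1) :
    ∫ y, ‖D + (f i y - ∫ x, f i x ∂μ) * t‖ ^ 2 ∂μ ≤ ‖D‖ ^ 2 + 4 := by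
  set m := ∫ x, f i x ∂μ with hm
  have h1 : ∀ y : X, ‖D + (f i y - m) * t‖ ^ 2 =
      ‖D‖ ^ 2 + 2 * ((conj D * t) * (f i y - m)).re + ‖(f i y - m) * t‖ ^ 2 := by
    intro y
    have e1 : ∀ a b : ℂ, ‖a + b‖ ^ 2 = ‖a‖ ^ 2 + 2 * (conj a * b).re + ‖b‖ ^ 2 := norm_sq_add
    rw [e1, ← mul_assoc (conj D), mul_right_comm (conj D)]
  have h2 : ∀ y : X, ‖D + (f i y - m) * t‖ ^ 2 ≤
      ‖D‖ ^ 2 + 2 * ((conj D * t) * (f i y - m)).re + 4 := by
    intro y
    rw [h1 y]
    have h3 : ‖(f i y - m) * t‖ ≤ 2 := by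
      rw [norm_mul]
      have h4 : ‖f i y - m‖ ≤ 2 := by
        refine (norm_sub_le _ _).trans ?_
        have := norm_mean_le μ f hf hf1 i
        have := hf1 i y
        linarith
      calc ‖f i y - m‖ * ‖t‖ ≤ 2 * 1 := mul_le_mul h4 ht (norm_nonneg _) (by norm_num)
        _ = 2 := by norm_num
    have h5 : ‖(f i y - m) * t‖ ^ 2 ≤ 2 ^ 2 := pow_le_pow_left₀ (norm_nonneg _) h3 2
    linarith
  have hi1 : Integrable (fun y : X => (conj D * t) * (f i y - m)) μ :=
    ((integrable_cont' μ _ (hf i)).sub (integrable_const _)).const_mul _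
  have hi2 : Integrable (fun y : X => ((conj D * t) * (f i y - m)).re) μ := hi1.re
  have hi3 : Integrable (fun y : X => ‖D‖ ^ 2 + 2 * ((conj D * t) * (f i y - m)).re + 4) μ :=
    ((integrable_const _).add (hi2.const_mul 2)).add (integrable_const _)
  have hzero : ∫ y : X, ((conj D * t) * (f i y - m)).re ∂μ = 0 := by
    have h6 : ∫ y : X, ((conj D * t) * (f i y - m)).re ∂μ =
        (∫ y : X, (conj D * t) * (f i y - m) ∂μ).re := integral_re hi1
    rw [h6, integral_const_mul, integral_sub (integrable_cont' μ _ (hf i)) (integrable_const _)]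
    simp [hm]
  calc ∫ y, ‖D + (f i y - m) * t‖ ^ 2 ∂μ
      ≤ ∫ y : X, (‖D‖ ^ 2 + 2 * ((conj D * t) * (f i y - m)).re + 4) ∂μ := by
        refine integral_mono_of_nonneg (Eventually.of_forall fun y => by positivity) hi3
          (Eventually.of_forall h2)
    _ = ‖D‖ ^ 2 + 4 := by
        have e2 : (fun y : X => ‖D‖ ^ 2 + 2 * ((conj D * t) * (f i y - m)).re + 4) =
            fun y : X => (‖D‖ ^ 2 + 4) + 2 * ((conj D * t) * (f i y - m)).re := by
          funext y; ring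
        rw [e2, integral_add (f := fun _ : X => ‖D‖ ^ 2 + 4)
          (g := fun y : X => 2 * ((conj D * t) * (f i y - m)).re)
          (integrable_const _) (hi2.const_mul 2), integral_const_mul, hzero]
        simp

theorem exists_step' [Countable J] (w : J → ℝ) (hw0 : ∀ i, 0 ≤ w i) (hw : Summable w) (x0 : X)
    (D t : J → ℂ) {B : ℝ} (hD : ∀ i, ‖D i‖ ≤ B) (ht : ∀ i, ‖t i‖ ≤ 1) :
    ∃ y : X, ∑' i, w i * ‖D i + (f i y - ∫ x, f i x ∂μ) * t i‖ ^ 2 ≤
      ∑' i, w i * ‖D i‖ ^ 2 + 4 * ∑' i, w i := by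
  by_cases hI : Nonempty J
  swap
  · rw [not_nonempty_iff] at hI
    exact ⟨x0, by simp⟩
  have hB : 0 ≤ B := (norm_nonneg _).trans (hD hI.some)
  set F : J → X → ℝ := fun i y => w i * ‖D i + (f i y - ∫ x, f i x ∂μ) * t i‖ ^ 2 with hF
  have hFb : ∀ i y, ‖F i y‖ ≤ w i * (B + 2) ^ 2 := by
    intro i y
    rw [hF]
    simp only
    rw [norm_mul, Real.norm_of_nonneg (hw0 i), Real.norm_of_nonneg (by positivity)]
    refine mul_le_mul_of_nonneg_left (pow_le_pow_left₀ (norm_nonneg _) ?_ 2) (hw0 i)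
    refine (norm_add_le _ _).trans (add_le_add (hD i) ?_)
    rw [norm_mul]
    have h4 : ‖f i y - ∫ x, f i x ∂μ‖ ≤ 2 := by
      refine (norm_sub_le _ _).trans ?_
      have := norm_mean_le μ f hf hf1 i
      have := hf1 i y
      linarith
    calc ‖f i y - ∫ x, f i x ∂μ‖ * ‖t i‖ ≤ 2 * 1 :=
          mul_le_mul h4 (ht i) (norm_nonneg _) (by norm_num)
      _ = 2 := by norm_num
  have hFc : ∀ i, Continuous (F i) := by
    intro i
    rw [hF]
    exact continuous_const.mul ((continuous_const.add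
      (((hf i).sub continuous_const).mul continuous_const)).norm.pow 2)
  have hFi : ∀ i, Integrable (F i) μ := fun i =>
    Integrable.mono' (integrable_const (w i * (B + 2) ^ 2)) (hFc i).aestronglyMeasurable
      (Eventually.of_forall (hFb i))
  have hsum : Summable fun i => w i * (B + 2) ^ 2 := hw.mul_right _
  have hcont : Continuous fun y => ∑' i, F i y := continuous_tsum hFc hsum hFb
  have hbd : ∀ y, ‖∑' i, F i y‖ ≤ ∑' i, w i * (B + 2) ^ 2 := fun y =>
    tsum_of_norm_bounded hsum.hasSum fun i => hFb i y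
  have hint : Integrable (fun y => ∑' i, F i y) μ :=
    Integrable.mono' (integrable_const _) hcont.aestronglyMeasurable (Eventually.of_forall hbd)
  obtain ⟨y, hy⟩ := exists_le_integral hint
  refine ⟨y, hy.trans ?_⟩
  have hsumi : Summable fun i => ∫ y, ‖F i y‖ ∂μ := by
    refine Summable.of_nonneg_of_le (fun i => integral_nonneg fun y => norm_nonneg _)
      (fun i => ?_) hsum
    calc ∫ y, ‖F i y‖ ∂μ ≤ ∫ _, w i * (B + 2) ^ 2 ∂μ :=
          integral_mono (hFi i).norm (integrable_const _) (hFb i)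
      _ = w i * (B + 2) ^ 2 := by simp
  rw [← integral_tsum_of_summable_integral_norm hFi hsumi]
  have hterm : ∀ i, ∫ y, F i y ∂μ ≤ w i * ‖D i‖ ^ 2 + 4 * w i := by
    intro i
    rw [hF]
    simp only
    rw [integral_const_mul]
    have := step_term μ f hf hf1 i (D i) (t i) (ht i)
    nlinarith [hw0 i]
  have hs1 : Summable fun i => w i * ‖D i‖ ^ 2 := by
    refine Summable.of_nonneg_of_le (fun i => mul_nonneg (hw0 i) (by positivity)) (fun i => ?_)
      (hw.mul_right (B ^ 2))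
    exact mul_le_mul_of_nonneg_left (pow_le_pow_left₀ (norm_nonneg _) (hD i) 2) (hw0 i)
  have hs2 : Summable fun i => ∫ y, F i y ∂μ := by
    refine Summable.of_norm_bounded hsumi fun i => ?_
    exact norm_integral_le_integral_norm _
  calc ∑' i, ∫ y, F i y ∂μ ≤ ∑' i, (w i * ‖D i‖ ^ 2 + 4 * w i) :=
        hs2.tsum_le_tsum hterm (hs1.add (hw.mul_left 4))
    _ = ∑' i, w i * ‖D i‖ ^ 2 + 4 * ∑' i, w i := by
        rw [hs1.tsum_add (hw.mul_left 4), tsum_mul_left]

/-- **The greedy sequence.** -/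
theorem exists_seq' [Countable J] (x0 : X) (t : ℕ → J → ℂ) (ht : ∀ q i, ‖t q i‖ ≤ 1) :
    ∃ A : ℕ → X, ∀ i, ∃ C : ℝ, 0 ≤ C ∧ ∀ N : ℕ,
      ‖∑ q ∈ Finset.range N, (f i (A q) - ∫ x, f i x ∂μ) * t q i‖ ≤ C * Real.sqrt N := by
  classical
  obtain ⟨w, hw0, hw⟩ := exists_weight J
  let St := {D : J → ℂ // ∃ B, ∀ i, ‖D i‖ ≤ B}
  have hstep : ∀ (q : ℕ) (D : St), ∃ y : X,
      ∑' i, w i * ‖D.1 i + (f i y - ∫ x, f i x ∂μ) * t q i‖ ^ 2 ≤
        ∑' i, w i * ‖D.1 i‖ ^ 2 + 4 * ∑' i, w i := fun q D => by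
    obtain ⟨B, hB⟩ := D.2
    exact exists_step' μ f hf hf1 w (fun i => (hw0 i).le) hw x0 D.1 (t q) hB (ht q)
  choose Y hY using hstep
  have hnext : ∀ (q : ℕ) (D : St), ∃ B, ∀ i, ‖D.1 i + (f i (Y q D) - ∫ x, f i x ∂μ) * t q i‖ ≤ B := by
    intro q D
    obtain ⟨B, hB⟩ := D.2
    refine ⟨B + 2, fun i => (norm_add_le _ _).trans (add_le_add (hB i) ?_)⟩
    rw [norm_mul]
    have h4 : ‖f i (Y q D) - ∫ x, f i x ∂μ‖ ≤ 2 := by
      refine (norm_sub_le _ _).trans ?_
      have := norm_mean_le μ f hf hf1 i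
      have := hf1 i (Y q D)
      linarith
    calc ‖f i (Y q D) - ∫ x, f i x ∂μ‖ * ‖t q i‖ ≤ 2 * 1 :=
          mul_le_mul h4 (ht q i) (norm_nonneg _) (by norm_num)
      _ = 2 := by norm_num
  let next : ℕ → St → St := fun q D => ⟨fun i => D.1 i + (f i (Y q D) - ∫ x, f i x ∂μ) * t q i, hnext q D⟩
  let seq : ℕ → St := fun N => Nat.rec (⟨fun _ => 0, 0, fun i => by simp⟩ : St) next N
  have hseq0 : seq 0 = ⟨fun _ => 0, 0, fun i => by simp⟩ := rfl
  have hseq1 : ∀ N, seq (N + 1) = next N (seq N) := fun N => rfl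
  refine ⟨fun q => Y q (seq q), fun i => ?_⟩
  have hval : ∀ N, (seq N).1 i = ∑ q ∈ Finset.range N,
      (f i (Y q (seq q)) - ∫ x, f i x ∂μ) * t q i := by
    intro N
    induction N with
    | zero => rw [hseq0]; simp
    | succ N ih => rw [Finset.sum_range_succ, ← ih, hseq1]
  set W := 4 * ∑' i, w i with hW
  have hW0 : 0 ≤ W := mul_nonneg (by norm_num) (tsum_nonneg fun i => (hw0 i).le)
  have hpot : ∀ N : ℕ, ∑' i, w i * ‖(seq N).1 i‖ ^ 2 ≤ W * N := by
    intro N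
    induction N with
    | zero => rw [hseq0]; simp
    | succ N ih =>
      rw [hseq1]
      have h1 := hY N (seq N)
      show ∑' i, w i * ‖(seq N).1 i + (f i (Y N (seq N)) - ∫ x, f i x ∂μ) * t N i‖ ^ 2 ≤ _
      push_cast
      linarith
  have hsumm : ∀ N, Summable fun i => w i * ‖(seq N).1 i‖ ^ 2 := by
    intro N
    obtain ⟨B, hB⟩ := (seq N).2
    exact summ_sq w (fun i => (hw0 i).le) hw hB
  refine ⟨Real.sqrt (W / w i), Real.sqrt_nonneg _, fun N => ?_⟩
  rw [← hval N, ← Real.sqrt_mul (div_nonneg hW0 (hw0 i).le)]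
  refine Real.le_sqrt_of_sq_le ?_
  have h1 : w i * ‖(seq N).1 i‖ ^ 2 ≤ ∑' i, w i * ‖(seq N).1 i‖ ^ 2 :=
    (hsumm N).le_tsum i fun j _ => mul_nonneg (hw0 j).le (by positivity)
  have h2 := h1.trans (hpot N)
  have h3 : W / w i * (N : ℝ) = (W * N) / w i := by ring
  rw [h3, le_div_iff₀ (hw0 i)]
  linarith

/-- **Families with a given law.** -/
theorem exists_law_family [Countable J] (x0 : X) {J' : Type} [Countable J'] (b : J' → Nat.Primes → ℂ)
    (hb : ∀ j p, ‖b j p‖ ≤ 1) :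
    ∃ Q : Nat.Primes → X, ∀ i j, dir (fun p => b j p * (f i (Q p) - ∫ x, f i x ∂μ)) ∈ H70.CS.Neg := by
  classical
  obtain ⟨A, hA⟩ := exists_seq' μ (fun (k : J × J') => f k.1) (fun k => hf k.1) (fun k => hf1 k.1) x0
    (fun q k => if h : q.Prime then b k.2 ⟨q, h⟩ else 0) (fun q k => by
      split_ifs
      · exact hb _ _
      · simp)
  refine ⟨fun p => A p, fun i j => ?_⟩
  obtain ⟨C, hC0, hC⟩ := hA (i, j)
  set c : ℕ → ℂ := fun q => (f i (A q) - ∫ x, f i x ∂μ) * (if h : q.Prime then b j ⟨q, h⟩ else 0) with hc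
  have hc0 : c 0 = 0 := by
    rw [hc]; simp only; rw [dif_neg Nat.not_prime_zero, mul_zero]
  have hcM : ∀ q, ‖c q‖ ≤ 2 := by
    intro q
    rw [hc]; simp only
    rw [norm_mul]
    have h4 : ‖f i (A q) - ∫ x, f i x ∂μ‖ ≤ 2 := by
      refine (norm_sub_le _ _).trans ?_
      have := norm_mean_le μ f hf hf1 i
      have := hf1 i (A q)
      linarith
    have h5 : ‖(if h : q.Prime then b j ⟨q, h⟩ else 0 : ℂ)‖ ≤ 1 := by
      split_ifs
      · exact hb _ _
      · simp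
    calc _ ≤ (2 : ℝ) * 1 := mul_le_mul h4 h5 (norm_nonneg _) (by norm_num)
      _ = 2 := by norm_num
  have h1 := neg_of_sqrt hc0 hcM hC
  refine neg_of_eq h1 fun s hs => ?_
  unfold dir
  have h2 : ∀ p : Nat.Primes, b j p * (f i (A p) - ∫ x, f i x ∂μ) * ((p : ℕ) : ℂ) ^ (-s) =
      (fun q : ℕ => c q * (q : ℂ) ^ (-s)) (p : ℕ) := by
    intro p
    simp only [hc]
    rw [dif_pos p.2, mul_comm (b j p)]
    rfl
  rw [tsum_congr h2]
  refine tsum_subtype_eq_of_support_subset (f := fun q : ℕ => c q * (q : ℂ) ^ (-s))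
    (s := {p : ℕ | p.Prime}) ?_
  intro q hq
  by_contra hn
  apply hq
  have hn' : ¬ q.Prime := hn
  simp only [hc]
  rw [dif_neg hn', mul_zero, zero_mul]

end

end Pool.Agent.H4.GG
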