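import Pool.Agent.H4.GG.Ord

/-! The central orders of the Gan-Gross-Prasad L-functions. -/

set_option autoImplicit false

namespace Pool.Agent.H4.GG

open Pool.Agent.H70.CS Complex Filter Topology Finset

lemma norm_alpha {a : ℕ} (sp : Bool) (x : Fin a → Circle) (k : Fin a × Bool) : ‖alpha sp x k‖ ≤ 1 := by
  unfold alpha
  split_ifs
  · simp
  · simp
  · rw [Circle.norm_coe]
  · rw [Circle.norm_coe]

lemma norm_beta {b : ℕ} (y : Fin b → Circle) (k : Fin b × Bool) : ‖beta y k‖ ≤ 1 := by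
  unfold beta
  split_ifs
  · rw [Circle.norm_coe]
  · rw [Circle.norm_coe]

lemma norm_evR {a b : ℕ} (S : Finset Nat.Primes) (split : Nat.Primes → Bool) (p : Nat.Primes) (x : Tor a b)
    (k : (Fin a × Bool) × (Fin b × Bool)) : ‖evR S split p x k‖ ≤ 1 := by
  unfold evR
  split_ifs
  · simp
  · rw [norm_mul]
    exact mul_le_one₀ (norm_alpha _ _ _) (norm_nonneg _) (norm_beta _ _)

/-- the element with real part `cos t` -/
lemma circle_pair (t : ℝ) : ((Circle.exp t : Circle) : ℂ) + (((Circle.exp t)⁻¹ : Circle) : ℂ) = 2 * Real.cos t := by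
  rw [← Circle.exp_neg, Circle.coe_exp, Circle.coe_exp, Complex.ofReal_cos, Complex.cos]
  push_cast
  ring

/-- the point with the angles `t, π/2, π/2, …` -/
noncomputable def pt (t : ℝ) (n : ℕ) (i : Fin n) : Circle :=
  Circle.exp (if (i : ℕ) = 0 then t else Real.pi / 2)

lemma pt_pair (t : ℝ) {n : ℕ} (i : Fin n) : ((pt t n i : Circle) : ℂ) + (((pt t n i)⁻¹ : Circle) : ℂ) =
    if (i : ℕ) = 0 then 2 * (Real.cos t : ℂ) else 0 := by
  unfold pt
  rw [circle_pair]
  split_ifs
  · rfl
  · rw [Real.cos_pi_div_two]; simp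

lemma sum_first {n : ℕ} (hn : 1 ≤ n) (z : ℂ) : ∑ i : Fin n, (if (i : ℕ) = 0 then z else 0) = z := by
  obtain ⟨m, rfl⟩ : ∃ m, n = m + 1 := ⟨n - 1, by omega⟩
  rw [Fin.sum_univ_succ]
  simp

lemma sum_alpha {a : ℕ} (ha : 2 ≤ a) (sp : Bool) (t : ℝ) :
    ∑ k, alpha sp (pt t a) k = 2 * Real.cos t := by
  rw [Fintype.sum_prod_type]
  have h1 : ∀ i : Fin a, ∑ e : Bool, alpha sp (pt t a) (i, e) = if (i : ℕ) = 0 then 2 * (Real.cos t : ℂ) else 0 := by
    intro i
    rw [Fintype.sum_bool]
    unfold alpha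
    by_cases h : sp = false ∧ (i : ℕ) + 1 = a
    · simp only [if_pos h, if_true, Bool.false_eq_true, if_false]
      rw [if_neg (by omega)]
      ring
    · simp only [if_neg h, if_true, Bool.false_eq_true, if_false]
      exact pt_pair t i
  rw [sum_congr rfl fun i _ => h1 i, sum_first (by omega)]

lemma sum_beta {b : ℕ} (hb : 1 ≤ b) (t : ℝ) : ∑ k, beta (pt t b) k = 2 * Real.cos t := by
  rw [Fintype.sum_prod_type]
  have h1 : ∀ i : Fin b, ∑ e : Bool, beta (pt t b) (i, e) = if (i : ℕ) = 0 then 2 * (Real.cos t : ℂ) else 0 := by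
    intro i
    rw [Fintype.sum_bool]
    unfold beta
    simp only [if_true, Bool.false_eq_true, if_false]
    exact pt_pair t i
  rw [sum_congr rfl fun i _ => h1 i, sum_first hb]

/-- the class whose trace under `R` is `κ` -/
noncomputable def cls (a b : ℕ) (κ : ℤ) : Tor a b :=
  (pt (2 * Real.pi / 3) a, pt (if κ = 1 then 2 * Real.pi / 3 else Real.pi / 3) b)

lemma cos_two_thirds : Real.cos (2 * Real.pi / 3) = -(1 / 2) := by
  have h : 2 * Real.pi / 3 = Real.pi - Real.pi / 3 := by ring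
  rw [h, Real.cos_pi_sub, Real.cos_pi_div_three]

lemma sum_evR {a b : ℕ} (ha : 2 ≤ a) (hb : 1 ≤ b) (S : Finset Nat.Primes) (split : Nat.Primes → Bool) {κ : ℤ}
    (hκ : κ = 1 ∨ κ = -1) (p : Nat.Primes) (hp : p ∉ S) : ∑ k, evR S split p (cls a b κ) k = κ := by
  have h1 : ∀ k : (Fin a × Bool) × (Fin b × Bool), evR S split p (cls a b κ) k =
      alpha (split p) (pt (2 * Real.pi / 3) a) k.1 *
        beta (pt (if κ = 1 then 2 * Real.pi / 3 else Real.pi / 3) b) k.2 := by
    intro k
    unfold evR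
    rw [if_neg hp]
    rfl
  rw [sum_congr rfl fun k _ => h1 k, Fintype.sum_prod_type]
  simp only
  rw [← Finset.sum_mul_sum, sum_alpha ha, sum_beta hb, cos_two_thirds]
  rcases hκ with rfl | rfl
  · rw [if_pos rfl, cos_two_thirds]
    push_cast
    norm_num
  · rw [if_neg (by norm_num), Real.cos_pi_div_three]
    push_cast
    norm_num

lemma norm_evRB {a b d : ℕ} (S : Finset Nat.Primes) (split : Nat.Primes → Bool) {B : Nat.Primes → Fin d → ℂ}
    (hB : ∀ p j, ‖B p j‖ ≤ 1) (p : Nat.Primes) (x : Tor a b) (k : ((Fin a × Bool) × (Fin b × Bool)) × Fin d) :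
    ‖evR S split p x k.1 * B p k.2‖ ≤ 1 := by
  rw [norm_mul]
  exact mul_le_one₀ (norm_evR _ _ _ _ _) (norm_nonneg _) (hB _ _)

lemma LEul_one {K : Type} [Fintype K] (e : Nat.Primes → K → ℂ) (s : ℂ) :
    LEul e s = LEul (fun p (k : K × Fin 1) => e p k.1 * (fun _ (_ : Fin 1) => (1 : ℂ)) p k.2) s := by
  unfold LEul
  refine tprod_congr fun p => ?_
  rw [Fintype.prod_prod_type]
  simp

lemma LEul_zeta {s : ℂ} (hs : 1 < s.re) : LEul (fun _ (_ : Fin 1) => (1 : ℂ)) s = riemannZeta s := by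
  rw [LEul_eq (fun _ _ => by simp) hs, ← exp_lam1 hs]
  simp [lam1]

/-- **Central orders can be prescribed.** -/
theorem free_orders {a b : ℕ} (ha : 2 ≤ a) (hb : 1 ≤ b) (S : Finset Nat.Primes) (split : Nat.Primes → Bool)
    (P : Nat.Primes → Tor a b) {J : Type} [Countable J] (d : J → ℕ)
    (B : ∀ j, Nat.Primes → Fin (d j) → ℂ) (hB : ∀ j p k, ‖B j p k‖ ≤ 1) (r : ℤ) :
    ∃ (T : Set Nat.Primes) (A : Nat.Primes → Tor a b), Thin r.natAbs T ∧ (∀ p, p ∉ T → A p = P p) ∧
      (∀ F : ℂ → ℂ, IsCont F (LR S split P) → (∀ s : ℂ, s.re = 1 → meromorphicOrderAt F s = 0) →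
        ∃ G : ℂ → ℂ, IsCont G (LR S split A) ∧
          meromorphicOrderAt G (1 / 2) = meromorphicOrderAt F (1 / 2) + r ∧
          ∀ s : ℂ, 1 / 2 ≤ s.re → s ≠ 1 / 2 → meromorphicOrderAt G s = meromorphicOrderAt F s) ∧
      ∀ j (E F : ℂ → ℂ), IsCont E (LEul (B j)) → IsCont F (LRB S split P (B j)) →
        (∀ s : ℂ, s.re = 1 → meromorphicOrderAt E s = 0 ∧ meromorphicOrderAt F s = 0) →
        ∃ G : ℂ → ℂ, IsCont G (LRB S split A (B j)) ∧
          ∀ s : ℂ, 1 / 2 ≤ s.re → meromorphicOrderAt G s = meromorphicOrderAt F s := by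
  classical
  set κ : ℤ := if 0 ≤ r then -1 else 1 with hκdef
  have hκ : κ = 1 ∨ κ = -1 := by
    rw [hκdef]; split_ifs
    · exact Or.inr rfl
    · exact Or.inl rfl
  have hr : (r.natAbs : ℤ) * (κ * (-1)) = r := by
    rw [hκdef]
    split_ifs with h
    · have := Int.natAbs_of_nonneg h; omega
    · have := Int.ofNat_natAbs_of_nonpos (a := r) (by omega); omega
  set Q : Nat.Primes → Tor a b := fun _ => cls a b κ with hQ
  let Kx : Option J → Type := fun j => match j with
    | none => (Fin a × Bool) × (Fin b × Bool)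
    | some j => ((Fin a × Bool) × (Fin b × Bool)) × Fin (d j)
  let inst : ∀ j, Fintype (Kx j) := fun j => match j with
    | none => inferInstanceAs (Fintype ((Fin a × Bool) × (Fin b × Bool)))
    | some j => inferInstanceAs (Fintype (((Fin a × Bool) × (Fin b × Bool)) × Fin (d j)))
  let ev : ∀ j, Nat.Primes → Tor a b → Kx j → ℂ := fun j => match j with
    | none => fun p x k => evR S split p x k
    | some j => fun p x k => evR S split p x k.1 * B j p k.2
  have hev : ∀ j p x k, ‖ev j p x k‖ ≤ 1 := by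
    rintro (_ | j) p x k
    · exact norm_evR S split p x k
    · exact norm_evRB S split (hB j) p x k
  obtain ⟨T, hT, hmix⟩ := @mixing (Tor a b) (Option J) _ Kx inst ev hev P Q r.natAbs
  set A : Nat.Primes → Tor a b := fun p => if p ∈ T then Q p else P p with hA
  have hre : ∀ s : ℂ, (s + 1 / 2).re = s.re + 1 / 2 := fun s => by simp
  have hres := hmix A (fun p hp => by rw [hA]; simp only [if_pos hp])
    (fun p hp => by rw [hA]; simp only [if_neg hp])
  refine ⟨T, A, hT, fun p hp => by rw [hA]; simp only [if_neg hp], fun F hF hF1 => ?_,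
    fun j E FB hE hFB h11 => ?_⟩
  · obtain ⟨g, hg, hgA⟩ := hres none
    obtain ⟨h, hh, hhe⟩ := const_formula (K := (Fin a × Bool) × (Fin b × Bool))
      (e := fun p => evR S split p (Q p)) (fun p k => norm_evR _ _ _ _ _)
      (B := fun _ (_ : Fin 1) => (1 : ℂ)) (fun _ _ => by simp) S κ
      (fun p hp => sum_evR ha hb S split hκ p hp)
    set FQ : ℂ → ℂ := (riemannZeta ^ κ) * fun s => Complex.exp (h s) with hFQ
    have hFQm : ∀ s : ℂ, 1 / 2 < s.re → MeromorphicAt (fun s => Complex.exp (h s)) s := fun s hs =>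
      (hh.analyticAt ((isOpen_HP _).mem_nhds hs)).cexp.meromorphicAt
    obtain ⟨G, hG, hGo⟩ := mix_order (eP := fun p => evR S split p (P p)) (eQ := fun p => evR S split p (Q p))
      (eA := fun p => evR S split p (A p)) (fun p k => norm_evR _ _ _ _ _) (FP := F) (FQ := FQ) (g := g)
      (c := r.natAbs) hg (fun s hs => hgA s hs) hF
      (fun s hs => ((zeta_meromorphicAt s).zpow κ).mul (hFQm s (by
        have : (3 / 4 : ℝ) < s.re := hs
        linarith)))
      (fun s hs => by
        rw [hFQ]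
        simp only [Pi.mul_apply, Pi.pow_apply]
        rw [LEul_one, hhe s hs, LEul_zeta hs])
    have hord : ∀ s : ℂ, 1 ≤ s.re → meromorphicOrderAt FQ s = κ * meromorphicOrderAt riemannZeta s := by
      intro s hs
      rw [hFQ, meromorphicOrderAt_mul ((zeta_meromorphicAt s).zpow κ) (hFQm s (by linarith)),
        meromorphicOrderAt_zpow (zeta_meromorphicAt s),
        order_exp (hh.analyticAt ((isOpen_HP _).mem_nhds (show 1 / 2 < s.re by linarith))), add_zero]
    have hF2 : ∀ s : ℂ, 1 ≤ s.re → meromorphicOrderAt F s = 0 := by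
      intro s hs
      rcases hs.lt_or_eq with h1 | h1
      · exact order_right (e := fun p => evR S split p (P p)) (fun p k => norm_evR _ _ _ _ _) hF.2 h1
      · exact hF1 s h1.symm
    refine ⟨G, hG, ?_, fun s hs hne => ?_⟩
    · have e1 : (1 / 2 : ℂ) + 1 / 2 = 1 := by norm_num
      have e2 : (1 / 4 : ℝ) < (1 / 2 : ℂ).re := by norm_num
      rw [hGo _ e2, e1, hord 1 (by simp), hF2 1 (by simp), order_zeta_one, sub_zero]
      congr 1
      rw [show ((r.natAbs : ℕ) : WithTop ℤ) = (((r.natAbs : ℕ) : ℤ) : WithTop ℤ) from rfl,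
        ← WithTop.coe_mul, ← WithTop.coe_mul, hr]
    · have h5 : 1 ≤ (s + 1 / 2).re := by rw [hre]; linarith
      rw [hGo s (by linarith), hord _ h5, hF2 _ h5,
        order_zeta_ne h5 (fun h => hne (by linear_combination h))]
      simp
  · obtain ⟨g, hg, hgA⟩ := hres (some j)
    obtain ⟨h, hh, hhe⟩ := const_formula (K := (Fin a × Bool) × (Fin b × Bool))
      (e := fun p => evR S split p (Q p)) (fun p k => norm_evR _ _ _ _ _) (hB j) S κ
      (fun p hp => sum_evR ha hb S split hκ p hp)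
    set FQ : ℂ → ℂ := (E ^ κ) * fun s => Complex.exp (h s) with hFQ
    have hFQm : ∀ s : ℂ, 1 / 2 < s.re → MeromorphicAt (fun s => Complex.exp (h s)) s := fun s hs =>
      (hh.analyticAt ((isOpen_HP _).mem_nhds hs)).cexp.meromorphicAt
    have hEm : ∀ s : ℂ, 3 / 4 < s.re → MeromorphicAt E s := fun s hs =>
      hE.1 s (show 1 / 4 < s.re by linarith)
    obtain ⟨G, hG, hGo⟩ := mix_order
      (eP := fun p (k : ((Fin a × Bool) × (Fin b × Bool)) × Fin (d j)) => evR S split p (P p) k.1 * B j p k.2)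
      (eQ := fun p (k : ((Fin a × Bool) × (Fin b × Bool)) × Fin (d j)) => evR S split p (Q p) k.1 * B j p k.2)
      (eA := fun p (k : ((Fin a × Bool) × (Fin b × Bool)) × Fin (d j)) => evR S split p (A p) k.1 * B j p k.2)
      (fun p k => norm_evRB S split (hB j) p _ k) (FP := FB) (FQ := FQ) (g := g)
      (c := r.natAbs) hg (fun s hs => hgA s hs) hFB
      (fun s hs => ((hEm s hs).zpow κ).mul (hFQm s (by
        have : (3 / 4 : ℝ) < s.re := hs
        linarith)))
      (fun s hs => by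
        rw [hFQ]
        simp only [Pi.mul_apply, Pi.pow_apply]
        rw [hhe s hs, hE.2 s hs])
    have hE2 : ∀ s : ℂ, 1 ≤ s.re → meromorphicOrderAt E s = 0 := by
      intro s hs
      rcases hs.lt_or_eq with h1 | h1
      · exact order_right (e := B j) (hB j) hE.2 h1
      · exact (h11 s h1.symm).1
    have hord : ∀ s : ℂ, 1 ≤ s.re → meromorphicOrderAt FQ s = 0 := by
      intro s hs
      rw [hFQ, meromorphicOrderAt_mul ((hEm s (by linarith)).zpow κ) (hFQm s (by linarith)),
        meromorphicOrderAt_zpow (hEm s (by linarith)),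
        order_exp (hh.analyticAt ((isOpen_HP _).mem_nhds (show 1 / 2 < s.re by linarith))), add_zero,
        hE2 s hs, mul_zero]
    have hF2 : ∀ s : ℂ, 1 ≤ s.re → meromorphicOrderAt FB s = 0 := by
      intro s hs
      rcases hs.lt_or_eq with h1 | h1
      · exact order_right
          (e := fun p (k : ((Fin a × Bool) × (Fin b × Bool)) × Fin (d j)) => evR S split p (P p) k.1 * B j p k.2)
          (fun p k => norm_evRB S split (hB j) p _ k) hFB.2 h1
      · exact (h11 s h1.symm).2
    refine ⟨G, hG, fun s hs => ?_⟩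
    have h5 : 1 ≤ (s + 1 / 2).re := by rw [hre]; linarith
    rw [hGo s (by linarith), hord _ h5, hF2 _ h5]
    simp

end Pool.Agent.H4.GG
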