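import Pool.Agent.H4.GG.Ana
import Pool.Agent.H4.GG.Defs

/-! Families changed on a set of primes of density `c p^(-1/2)`. -/

set_option autoImplicit false

namespace Pool.Agent.H4.GG

open Pool.Agent.H70.CS Complex Filter Topology Finset

open Classical in
/-- the density -/
noncomputable def wt (c : ℕ) (q : ℕ) : ℝ := if q.Prime ∧ c ^ 2 ≤ q then c * (q : ℝ) ^ (-(1 / 2) : ℝ) else 0

lemma wt_nonneg (c q : ℕ) : 0 ≤ wt c q := by
  unfold wt
  split_ifs
  · positivity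
  · exact le_refl _

lemma wt_le_one (c q : ℕ) : wt c q ≤ 1 := by
  unfold wt
  split_ifs with h
  · have hq : (0 : ℝ) < q := by exact_mod_cast h.1.pos
    rw [Real.rpow_neg hq.le, ← Real.sqrt_eq_rpow, ← div_eq_mul_inv, div_le_one (Real.sqrt_pos.2 hq)]
    refine Real.le_sqrt_of_sq_le ?_
    exact_mod_cast h.2
  · exact zero_le_one

lemma wt_le (c q : ℕ) : wt c q ≤ c * (q : ℝ) ^ (-(1 / 2) : ℝ) := by
  unfold wt
  split_ifs
  · exact le_refl _
  · positivity

lemma sum_rpow_le (N : ℕ) : ∑ q ∈ range (N + 1), (q : ℝ) ^ (-(1 / 2) : ℝ) ≤ 2 * Real.sqrt N := by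
  induction N with
  | zero => simp
  | succ N ih =>
    rw [sum_range_succ]
    have h0 : (0 : ℝ) < ((N + 1 : ℕ) : ℝ) := by positivity
    have hN : (0 : ℝ) ≤ (N : ℝ) := Nat.cast_nonneg N
    set x := Real.sqrt ((N + 1 : ℕ) : ℝ) with hx
    set y := Real.sqrt (N : ℝ) with hy
    have hx0 : 0 < x := Real.sqrt_pos.2 h0
    have hy0 : 0 ≤ y := Real.sqrt_nonneg _
    have hxx : x ^ 2 = (N : ℝ) + 1 := by rw [hx, Real.sq_sqrt h0.le]; push_cast; ring
    have hyy : y ^ 2 = (N : ℝ) := Real.sq_sqrt hN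
    have h1 : (((N + 1 : ℕ) : ℝ)) ^ (-(1 / 2) : ℝ) = x⁻¹ := by
      rw [Real.rpow_neg h0.le, ← Real.sqrt_eq_rpow]
    rw [h1]
    have h2 : x⁻¹ ≤ 2 * (x - y) := by
      rw [inv_le_iff_one_le_mul₀ hx0]
      nlinarith [sq_nonneg (x - y)]
    linarith

lemma sum_wt_le (c N : ℕ) : ∑ q ∈ range N, wt c q ≤ 2 * c * Real.sqrt N := by
  rcases Nat.eq_zero_or_pos N with rfl | hN
  · simp
  · obtain ⟨M, rfl⟩ : ∃ M, N = M + 1 := ⟨N - 1, by omega⟩
    calc ∑ q ∈ range (M + 1), wt c q ≤ ∑ q ∈ range (M + 1), c * (q : ℝ) ^ (-(1 / 2) : ℝ) :=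
          sum_le_sum fun q _ => wt_le c q
      _ = c * ∑ q ∈ range (M + 1), (q : ℝ) ^ (-(1 / 2) : ℝ) := by rw [mul_sum]
      _ ≤ c * (2 * Real.sqrt M) := by gcongr; exact sum_rpow_le M
      _ ≤ c * (2 * Real.sqrt ((M + 1 : ℕ) : ℝ)) := by
          gcongr
          exact_mod_cast Nat.le_succ M
      _ = 2 * c * Real.sqrt ((M + 1 : ℕ) : ℝ) := by ring

lemma sqrt_sum_wt_le (c N : ℕ) : Real.sqrt (∑ q ∈ range N, wt c q) ≤
    Real.sqrt (2 * c) * (N : ℝ) ^ (1 / 4 : ℝ) := by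
  have h1 : (N : ℝ) ^ (1 / 4 : ℝ) = Real.sqrt (Real.sqrt N) := by
    rw [Real.sqrt_eq_rpow, Real.sqrt_eq_rpow, ← Real.rpow_mul (Nat.cast_nonneg _)]
    norm_num
  rw [h1, ← Real.sqrt_mul (by positivity)]
  exact Real.sqrt_le_sqrt (sum_wt_le c N)


lemma cnt_eq (T' : Set ℕ) (hT' : ∀ q, q ∈ T' → q.Prime) (N : ℕ) :
    (cnt {p : Nat.Primes | (p : ℕ) ∈ T'} N : ℂ) = ∑ q ∈ range N, T'.indicator (fun _ => (1 : ℂ)) q := by
  classical
  unfold cnt
  have h1 : (fun p : Nat.Primes => (p : ℕ)) '' {p : Nat.Primes | p ∈ {p : Nat.Primes | (p : ℕ) ∈ T'} ∧ (p : ℕ) < N} =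
      (((range N).filter fun q => q ∈ T' : Finset ℕ) : Set ℕ) := by
    ext q
    simp only [Set.mem_image, Set.mem_setOf_eq, coe_filter, Finset.mem_range]
    constructor
    · rintro ⟨p, ⟨h1, h2⟩, rfl⟩
      exact ⟨h2, h1⟩
    · rintro ⟨h1, h2⟩
      exact ⟨⟨q, hT' q h2⟩, ⟨h2, h1⟩, rfl⟩
  have h2 : ((fun p : Nat.Primes => (p : ℕ)) '' {p : Nat.Primes | p ∈ {p : Nat.Primes | (p : ℕ) ∈ T'} ∧
      (p : ℕ) < N}).ncard = {p : Nat.Primes | p ∈ {p : Nat.Primes | (p : ℕ) ∈ T'} ∧ (p : ℕ) < N}.ncard :=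
    Set.ncard_image_of_injective _ Nat.Primes.coe_nat_injective
  rw [h1, Set.ncard_coe_finset, Finset.card_filter] at h2
  rw [← h2]
  push_cast
  refine sum_congr rfl fun q _ => ?_
  by_cases h : q ∈ T'
  · rw [if_pos h, Set.indicator_of_mem h]
  · rw [if_neg h, Set.indicator_of_notMem h]

/-- **A thin set in general position to countably many sequences.** -/
theorem exists_thin (c : ℕ) {κ : Type} [Countable κ] (t : κ → Nat.Primes → ℂ) (ht : ∀ k p, ‖t k p‖ ≤ 1) :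
    ∃ T : Set Nat.Primes,
      (∃ C : ℝ, ∀ N : ℕ, |(cnt T N : ℝ) - ∑ q ∈ range N, wt c q| ≤ C * (N : ℝ) ^ (1 / 4 : ℝ)) ∧
      (∀ x : ℝ, 1 / 2 < x → Summable (T.indicator fun p : Nat.Primes => ((p : ℕ) : ℝ) ^ (-x))) ∧
      (∀ k, dir (fun p => t k p * (T.indicator (fun _ => (1 : ℂ)) p - (wt c (p : ℕ) : ℂ))) ∈ Q4) := by
  classical
  let t' : Option κ → ℕ → ℂ := fun k q => match k with
    | none => 1
    | some k => if h : q.Prime then t k ⟨q, h⟩ else 0
  have ht' : ∀ k q, ‖t' k q‖ ≤ 1 := by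
    rintro (_ | k) q
    · show ‖(1 : ℂ)‖ ≤ 1
      simp
    · show ‖(if h : q.Prime then t k ⟨q, h⟩ else 0 : ℂ)‖ ≤ 1
      split_ifs with h
      · exact ht _ _
      · simp
  obtain ⟨T', hT', hC⟩ := exists_set (wt c) (wt_nonneg c) (wt_le_one c) t' ht'
  have hprime : ∀ q, q ∈ T' → q.Prime := by
    intro q hq
    by_contra hn
    refine hT' q ?_ hq
    unfold wt
    rw [if_neg (fun h => hn h.1)]
  set T : Set Nat.Primes := {p : Nat.Primes | (p : ℕ) ∈ T'} with hTdef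
  have hind : ∀ p : Nat.Primes, T.indicator (fun _ => (1 : ℂ)) p = T'.indicator (fun _ => (1 : ℂ)) (p : ℕ) := by
    intro p
    by_cases h : (p : ℕ) ∈ T'
    · rw [Set.indicator_of_mem h, Set.indicator_of_mem (show p ∈ T from h)]
    · rw [Set.indicator_of_notMem h, Set.indicator_of_notMem (show p ∉ T from h)]
  -- counting
  have hcount : ∃ C : ℝ, 0 ≤ C ∧ ∀ N : ℕ, |(cnt T N : ℝ) - ∑ q ∈ range N, wt c q| ≤ C * (N : ℝ) ^ (1 / 4 : ℝ) := by
    obtain ⟨C, hC0, hC1⟩ := hC none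
    refine ⟨C * Real.sqrt (2 * c), by positivity, fun N => ?_⟩
    have h1 := hC1 N
    have h2 : ∑ q ∈ range N, (T'.indicator (fun _ => (1 : ℂ)) q - wt c q) * t' none q =
        (((cnt T N : ℝ) - ∑ q ∈ range N, wt c q : ℝ) : ℂ) := by
      have h3 : ∀ q, (T'.indicator (fun _ => (1 : ℂ)) q - wt c q) * t' none q =
          T'.indicator (fun _ => (1 : ℂ)) q - wt c q := fun q => mul_one _
      rw [sum_congr rfl fun q _ => h3 q, sum_sub_distrib, ← cnt_eq T' hprime N]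
      push_cast
      rfl
    rw [h2, Complex.norm_real, Real.norm_eq_abs] at h1
    refine h1.trans ?_
    rw [mul_assoc]
    exact mul_le_mul_of_nonneg_left (sqrt_sum_wt_le c N) hC0
  obtain ⟨C, hC0, hcnt⟩ := hcount
  refine ⟨T, ⟨C, hcnt⟩, ?_, ?_⟩
  · intro x hx
    -- summability by partial sums
    have hO : (fun n : ℕ => ∑ k ∈ Finset.Icc 1 n, ‖T'.indicator (fun _ => (1 : ℂ)) k‖) =O[atTop]
        fun n : ℕ => (n : ℝ) ^ (1 / 2 : ℝ) := by
      refine Asymptotics.IsBigO.of_bound (2 * (2 * c + C)) ?_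
      filter_upwards [eventually_ge_atTop 1] with n hn
      have hn1 : (1 : ℝ) ≤ n := by exact_mod_cast hn
      have h1 : ∑ k ∈ Finset.Icc 1 n, ‖T'.indicator (fun _ => (1 : ℂ)) k‖ ≤ cnt T (n + 1) := by
        have h2 : ∑ k ∈ Finset.Icc 1 n, ‖T'.indicator (fun _ => (1 : ℂ)) k‖ ≤
            ∑ k ∈ range (n + 1), ‖T'.indicator (fun _ => (1 : ℂ)) k‖ := by
          refine sum_le_sum_of_subset_of_nonneg (fun k hk => ?_) (fun _ _ _ => norm_nonneg _)
          rw [Finset.mem_Icc] at hk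
          rw [Finset.mem_range]; omega
        refine h2.trans (le_of_eq ?_)
        have h3 := cnt_eq T' hprime (n + 1)
        have h4 : ∀ k, T'.indicator (fun _ => (1 : ℂ)) k = ((‖T'.indicator (fun _ => (1 : ℂ)) k‖ : ℝ) : ℂ) := by
          intro k
          by_cases h : k ∈ T'
          · rw [Set.indicator_of_mem h]; simp
          · rw [Set.indicator_of_notMem h]; simp
        rw [sum_congr rfl fun k _ => h4 k] at h3
        exact_mod_cast h3.symm
      have h5 := hcnt (n + 1)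
      have h6 := sum_wt_le c (n + 1)
      have h7 : Real.sqrt ((n + 1 : ℕ) : ℝ) ≤ 2 * (n : ℝ) ^ (1 / 2 : ℝ) := by
        rw [← Real.sqrt_eq_rpow]
        have h8 : ((n + 1 : ℕ) : ℝ) ≤ 2 ^ 2 * n := by push_cast; linarith
        calc Real.sqrt ((n + 1 : ℕ) : ℝ) ≤ Real.sqrt (2 ^ 2 * n) := Real.sqrt_le_sqrt h8
          _ = 2 * Real.sqrt n := by rw [Real.sqrt_mul (by norm_num), Real.sqrt_sq (by norm_num)]
      have h9 : ((n + 1 : ℕ) : ℝ) ^ (1 / 4 : ℝ) ≤ Real.sqrt ((n + 1 : ℕ) : ℝ) := by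
        rw [Real.sqrt_eq_rpow]
        exact Real.rpow_le_rpow_of_exponent_le (by push_cast; linarith) (by norm_num)
      have h10 : (0 : ℝ) ≤ (n : ℝ) ^ (1 / 2 : ℝ) := by positivity
      rw [Real.norm_of_nonneg (sum_nonneg fun _ _ => norm_nonneg _), Real.norm_of_nonneg h10]
      have h11 := (abs_le.1 h5).2
      have h12 : C * ((n + 1 : ℕ) : ℝ) ^ (1 / 4 : ℝ) ≤ C * (2 * (n : ℝ) ^ (1 / 2 : ℝ)) :=
        mul_le_mul_of_nonneg_left (h9.trans h7) hC0
      have h13 : 2 * c * Real.sqrt ((n + 1 : ℕ) : ℝ) ≤ 2 * c * (2 * (n : ℝ) ^ (1 / 2 : ℝ)) :=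
        mul_le_mul_of_nonneg_left h7 (by positivity)
      linarith
    have hsum := LSeriesSummable_of_sum_norm_bigO (s := (x : ℂ)) hO (by norm_num)
      (by rw [Complex.ofReal_re]; exact hx)
    have h14 : Summable fun q : ℕ => T'.indicator (fun q : ℕ => (q : ℝ) ^ (-x)) q := by
      refine hsum.norm.congr fun q => ?_
      rw [LSeries.norm_term_eq]
      rcases Nat.eq_zero_or_pos q with rfl | hq
      · rw [if_pos rfl, Set.indicator_of_notMem fun h => Nat.not_prime_zero (hprime 0 h)]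
      · rw [if_neg hq.ne']
        by_cases h : q ∈ T'
        · rw [Set.indicator_of_mem h, Set.indicator_of_mem h, norm_one, Complex.ofReal_re,
            Real.rpow_neg (Nat.cast_nonneg _), one_div]
        · rw [Set.indicator_of_notMem h, Set.indicator_of_notMem h, norm_zero, zero_div]
    have h15 : Summable fun p : Nat.Primes => T'.indicator (fun q : ℕ => (q : ℝ) ^ (-x)) (p : ℕ) :=
      h14.comp_injective Nat.Primes.coe_nat_injective
    refine h15.congr fun p => ?_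
    by_cases h : (p : ℕ) ∈ T'
    · rw [Set.indicator_of_mem h, Set.indicator_of_mem (show p ∈ T from h)]
    · rw [Set.indicator_of_notMem h, Set.indicator_of_notMem (show p ∉ T from h)]
  · intro k
    obtain ⟨C1, hC10, hC1⟩ := hC (some k)
    set a : ℕ → ℂ := fun q => (T'.indicator (fun _ => (1 : ℂ)) q - wt c q) * t' (some k) q with ha
    have ha0 : a 0 = 0 := by
      rw [ha]
      show _ * (if h : Nat.Prime 0 then t k ⟨0, h⟩ else 0 : ℂ) = 0
      rw [dif_neg Nat.not_prime_zero, mul_zero]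
    have haM : ∀ q, ‖a q‖ ≤ 2 := by
      intro q
      rw [ha]; simp only
      rw [norm_mul]
      have h1 : ‖T'.indicator (fun _ => (1 : ℂ)) q - (wt c q : ℂ)‖ ≤ 2 := by
        refine (norm_sub_le _ _).trans ?_
        rw [Complex.norm_real, Real.norm_of_nonneg (wt_nonneg c q)]
        have h2 : ‖T'.indicator (fun _ => (1 : ℂ)) q‖ ≤ 1 := by
          by_cases h : q ∈ T'
          · rw [Set.indicator_of_mem h]; simp
          · rw [Set.indicator_of_notMem h]; simp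
        linarith [wt_le_one c q]
      calc ‖T'.indicator (fun _ => (1 : ℂ)) q - (wt c q : ℂ)‖ * ‖t' (some k) q‖ ≤ (2 : ℝ) * 1 :=
            mul_le_mul h1 (ht' (some k) q) (norm_nonneg _) (by norm_num)
        _ = 2 := by norm_num
    have haC : ∀ N : ℕ, ‖∑ q ∈ range N, a q‖ ≤ (C1 * Real.sqrt (2 * c)) * (N : ℝ) ^ (1 / 4 : ℝ) := by
      intro N
      refine (hC1 N).trans ?_
      rw [mul_assoc]
      exact mul_le_mul_of_nonneg_left (sqrt_sum_wt_le c N) hC10
    refine q4_of_eq (q4_of_fourth ha0 haM haC) fun s hs => ?_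
    unfold dir
    have h2 : ∀ p : Nat.Primes, t k p * (T.indicator (fun _ => (1 : ℂ)) p - (wt c (p : ℕ) : ℂ)) *
        ((p : ℕ) : ℂ) ^ (-s) = (fun q : ℕ => a q * (q : ℂ) ^ (-s)) (p : ℕ) := by
      intro p
      show _ = (T'.indicator (fun _ => (1 : ℂ)) (p : ℕ) - wt c p) *
        (if h : (p : ℕ).Prime then t k ⟨p, h⟩ else 0 : ℂ) * _
      rw [dif_pos p.2, hind p, mul_comm (t k p)]
      rfl
    rw [tsum_congr h2]
    refine tsum_subtype_eq_of_support_subset (f := fun q : ℕ => a q * (q : ℂ) ^ (-s))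
      (s := {p : ℕ | p.Prime}) ?_
    intro q hq
    by_contra hn
    apply hq
    have hn' : ¬ q.Prime := hn
    show (T'.indicator (fun _ => (1 : ℂ)) q - wt c q) *
        (if h : q.Prime then t k ⟨q, h⟩ else 0 : ℂ) * _ = 0
    rw [dif_neg hn', mul_zero, zero_mul]

/-- **The change of one sequence.** -/
theorem core {T : Set Nat.Primes} (c : ℕ)
    (hT : ∀ x : ℝ, 1 / 2 < x → Summable (T.indicator fun p : Nat.Primes => ((p : ℕ) : ℝ) ^ (-x)))
    {v q u : Nat.Primes → ℂ} (hq : ∀ p, ‖q p‖ ≤ 1) (hu : ∀ p, ‖u p‖ ≤ 1)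
    (hv1 : ∀ p, p ∈ T → v p = q p) (hv2 : ∀ p, p ∉ T → v p = u p)
    (h1 : dir (fun p => q p * (T.indicator (fun _ => (1 : ℂ)) p - (wt c (p : ℕ) : ℂ))) ∈ Q4)
    (h2 : dir (fun p => u p * (T.indicator (fun _ => (1 : ℂ)) p - (wt c (p : ℕ) : ℂ))) ∈ Q4) :
    (fun s => lam v s - lam u s - c * (lam q (s + 1 / 2) - lam u (s + 1 / 2))) ∈ Q4 := by
  classical
  have hv : ∀ p, ‖v p‖ ≤ 1 := fun p => by
    by_cases h : p ∈ T
    · rw [hv1 p h]; exact hq p
    · rw [hv2 p h]; exact hu p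
  set r : Nat.Primes → ℂ := fun p =>
    (c * ((p : ℕ) : ℂ) ^ (-(1 / 2) : ℂ) - (wt c (p : ℕ) : ℂ)) * (q p - u p) with hr
  have hr0 : ∀ p : Nat.Primes, c ^ 2 ≤ (p : ℕ) → r p = 0 := by
    intro p hp
    rw [hr]; simp only
    unfold wt
    rw [if_pos ⟨p.2, hp⟩]
    push_cast
    rw [Complex.ofReal_cpow (Nat.cast_nonneg _)]
    push_cast
    rw [sub_self, zero_mul]
  have hcp : ∀ p : Nat.Primes, ‖((p : ℕ) : ℂ) ^ (-(1 / 2) : ℂ)‖ ≤ 1 := by
    intro p
    rw [Complex.norm_natCast_cpow_of_pos p.2.pos]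
    refine Real.rpow_le_one_of_one_le_of_nonpos (by exact_mod_cast p.2.one_lt.le) (by norm_num)
  have hw1 : ∀ p : Nat.Primes, ‖(wt c (p : ℕ) : ℂ)‖ ≤ 1 := fun p => by
    rw [Complex.norm_real, Real.norm_of_nonneg (wt_nonneg _ _)]; exact wt_le_one _ _
  have hi1 : ∀ p : Nat.Primes, ‖T.indicator (fun _ => (1 : ℂ)) p‖ ≤ 1 := fun p => by
    by_cases h : p ∈ T
    · rw [Set.indicator_of_mem h]; simp
    · rw [Set.indicator_of_notMem h]; simp
  have hrM : ∀ p, ‖r p‖ ≤ (c + 1) * 2 := by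
    intro p
    rw [hr]; simp only
    rw [norm_mul]
    refine mul_le_mul ?_ ?_ (norm_nonneg _) (by positivity)
    · refine (norm_sub_le _ _).trans (add_le_add ?_ (hw1 p))
      rw [norm_mul, Complex.norm_natCast]
      have := hcp p
      have hc : (0 : ℝ) ≤ c := Nat.cast_nonneg c
      nlinarith
    · refine (norm_sub_le _ _).trans ?_
      have := hq p
      have := hu p
      linarith
  have hXM : ∀ (b : Nat.Primes → ℂ), (∀ p, ‖b p‖ ≤ 1) → ∀ p,
      ‖b p * (T.indicator (fun _ => (1 : ℂ)) p - (wt c (p : ℕ) : ℂ))‖ ≤ 2 := by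
    intro b hb p
    rw [norm_mul]
    calc _ ≤ (1 : ℝ) * 2 := mul_le_mul (hb p) ((norm_sub_le _ _).trans
          (by have := hi1 p; have := hw1 p; linarith)) (norm_nonneg _) (by norm_num)
      _ = 2 := by norm_num
  have e1 := thin_tail hT hv hu hv2
  have e2 := dir_finite4 (c ^ 2) hr0
  have e3 := q4_shift (lam_sub_dir hq)
  have e4 := q4_shift (lam_sub_dir hu)
  have e5 := Submodule.sub_mem _ (Submodule.sub_mem _ (Submodule.add_mem _ e1 (Submodule.sub_mem _ h1 h2)) e2)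
    (Submodule.smul_mem _ (c : ℂ) (Submodule.sub_mem _ e3 e4))
  refine q4_of_eq e5 fun s hs => ?_
  have hs2 : 1 < (s + 1 / 2).re := by
    have : (s + 1 / 2).re = s.re + 1 / 2 := by simp
    rw [this]; linarith
  have a1 := (summable_dir hv hs).hasSum
  have a2 := (summable_dir hu hs).hasSum
  have a3 := (summable_dir (hXM q hq) hs).hasSum
  have a4 := (summable_dir (hXM u hu) hs).hasSum
  have a5 := (summable_dir hrM hs).hasSum
  have a6 := (summable_dir hq hs2).hasSum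
  have a7 := (summable_dir hu hs2).hasSum
  have b1 := a1.sub a2
  have b2 := ((a3.sub a4).sub a5).add ((a6.sub a7).mul_left (c : ℂ))
  have key : dir v s - dir u s = dir (fun p => q p * (T.indicator (fun _ => (1 : ℂ)) p - (wt c (p : ℕ) : ℂ))) s -
      dir (fun p => u p * (T.indicator (fun _ => (1 : ℂ)) p - (wt c (p : ℕ) : ℂ))) s - dir r s +
      c * (dir q (s + 1 / 2) - dir u (s + 1 / 2)) := by
    refine b1.unique ?_
    refine b2.congr_fun ?_ |> fun h => h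
    intro p
    have hp : ((p : ℕ) : ℂ) ≠ 0 := by exact_mod_cast p.2.ne_zero
    have h5 : ((p : ℕ) : ℂ) ^ (-(s + 1 / 2)) = ((p : ℕ) : ℂ) ^ (-(1 / 2) : ℂ) * ((p : ℕ) : ℂ) ^ (-s) := by
      rw [← Complex.cpow_add _ _ hp]
      congr 1
      ring
    rw [h5]
    by_cases h : p ∈ T
    · rw [hv1 p h, Set.indicator_of_mem h, hr]
      ring
    · rw [hv2 p h, Set.indicator_of_notMem h, hr]
      ring
  simp only [Pi.add_apply, Pi.sub_apply, Pi.smul_apply, smul_eq_mul]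
  linear_combination key

end Pool.Agent.H4.GG
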