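import Pool.Agent.H4.GG.Gen

/-! Orders of zeros and poles. -/

set_option autoImplicit false

namespace Pool.Agent.H4.GG

open Pool.Agent.H70.CS Complex Filter Topology Finset

lemma order_zero_of_analytic {f : ℂ → ℂ} {s : ℂ} (hf : AnalyticAt ℂ f s) (h0 : f s ≠ 0) :
    meromorphicOrderAt f s = 0 := by
  rw [hf.meromorphicOrderAt_eq, analyticOrderAt_eq_zero.2 (Or.inr h0)]
  rfl

lemma order_exp {g : ℂ → ℂ} {s : ℂ} (hg : AnalyticAt ℂ g s) :
    meromorphicOrderAt (fun z => Complex.exp (g z)) s = 0 :=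
  order_zero_of_analytic hg.cexp (Complex.exp_ne_zero _)

section
variable {K : Type} [Fintype K]

/-- in the half-plane of convergence there are no zeros and poles -/
lemma order_right {e : Nat.Primes → K → ℂ} (he : ∀ p k, ‖e p k‖ ≤ 1) {F : ℂ → ℂ}
    (hF : ∀ s : ℂ, 1 < s.re → F s = LEul e s) {s : ℂ} (hs : 1 < s.re) : meromorphicOrderAt F s = 0 := by
  have h1 : DifferentiableOn ℂ (fun s => ∑ k, lam (fun p => e p k) s) (HP 1) :=
    DifferentiableOn.fun_sum fun k _ => lam_differentiableOn fun p => he p k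
  have h2 : AnalyticAt ℂ (fun s => ∑ k, lam (fun p => e p k) s) s :=
    h1.analyticAt ((isOpen_HP 1).mem_nhds hs)
  rw [← order_exp h2]
  refine meromorphicOrderAt_congr ?_
  have h3 : ∀ᶠ z in 𝓝 s, z ∈ HP 1 := (isOpen_HP 1).mem_nhds hs
  filter_upwards [h3.filter_mono nhdsWithin_le_nhds] with z hz
  rw [hF z hz, LEul_eq he hz]

lemma isPreconnected_HP (σ : ℝ) : IsPreconnected (HP σ) :=
  (convex_halfSpace_re_gt σ).isPreconnected

/-- the orders are finite -/
lemma order_ne_top {e : Nat.Primes → K → ℂ} (he : ∀ p k, ‖e p k‖ ≤ 1) {F : ℂ → ℂ} {σ : ℝ} (hσ : σ ≤ 1)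
    (hFm : MeromorphicOn F (HP σ)) (hF : ∀ s : ℂ, 1 < s.re → F s = LEul e s) {s : ℂ} (hs : σ < s.re) :
    meromorphicOrderAt F s ≠ ⊤ := by
  have h2 : (1 : ℝ) < ((2 : ℝ) : ℂ).re := by rw [Complex.ofReal_re]; norm_num
  refine hFm.meromorphicOrderAt_ne_top_of_isPreconnected (isPreconnected_HP σ) (x := ((2 : ℝ) : ℂ))
    (show σ < _ by linarith) hs ?_
  rw [order_right he hF h2]
  exact WithTop.zero_ne_top

/-- **The orders of the mixed family.** -/
theorem mix_order {eP eQ eA : Nat.Primes → K → ℂ} (heP : ∀ p k, ‖eP p k‖ ≤ 1)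
    {FP FQ g : ℂ → ℂ} {c : ℕ} (hg : DifferentiableOn ℂ g (HP (1 / 4)))
    (hA : ∀ s : ℂ, 1 < s.re → LEul eA s = LEul eP s * (LEul eQ (s + 1 / 2) / LEul eP (s + 1 / 2)) ^ c *
      Complex.exp (g s))
    (hFP : IsCont FP (LEul eP)) (hFQ : MeromorphicOn FQ (HP (3 / 4)))
    (hFQ2 : ∀ s : ℂ, 1 < s.re → FQ s = LEul eQ s) :
    ∃ G : ℂ → ℂ, IsCont G (LEul eA) ∧ ∀ s : ℂ, 1 / 4 < s.re →
      meromorphicOrderAt G s = meromorphicOrderAt FP s +
        c * (meromorphicOrderAt FQ (s + 1 / 2) - meromorphicOrderAt FP (s + 1 / 2)) := by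
  have hre : ∀ s : ℂ, (s + 1 / 2).re = s.re + 1 / 2 := fun s => by simp
  have m1 : ∀ s : ℂ, 1 / 4 < s.re → MeromorphicAt FP s := fun s hs => hFP.1 s hs
  have m2 : ∀ s : ℂ, 1 / 4 < s.re → MeromorphicAt (fun z => FQ (z + 1 / 2)) s := fun s hs =>
    (hFQ (s + 1 / 2) (show 3 / 4 < (s + 1 / 2).re by rw [hre]; linarith)).comp_analyticAt
      (g := fun z => z + 1 / 2) (by fun_prop)
  have m3 : ∀ s : ℂ, 1 / 4 < s.re → MeromorphicAt (fun z => FP (z + 1 / 2)) s := fun s hs =>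
    (hFP.1 (s + 1 / 2) (show 1 / 4 < (s + 1 / 2).re by rw [hre]; linarith)).comp_analyticAt
      (g := fun z => z + 1 / 2) (by fun_prop)
  have m4 : ∀ s : ℂ, 1 / 4 < s.re → AnalyticAt ℂ g s := fun s hs =>
    hg.analyticAt ((isOpen_HP _).mem_nhds hs)
  have m5 : ∀ s : ℂ, 1 / 4 < s.re → MeromorphicAt (fun z => Complex.exp (g z)) s := fun s hs =>
    (m4 s hs).cexp.meromorphicAt
  refine ⟨FP * ((fun z => FQ (z + 1 / 2)) / (fun z => FP (z + 1 / 2))) ^ c * fun z => Complex.exp (g z),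
    ⟨fun s hs => ?_, fun s hs => ?_⟩, fun s hs => ?_⟩
  · exact ((m1 s hs).mul (((m2 s hs).div (m3 s hs)).pow c)).mul (m5 s hs)
  · have hs2 : 1 < (s + 1 / 2).re := by rw [hre]; linarith
    simp only [Pi.mul_apply, Pi.pow_apply, Pi.div_apply]
    rw [hA s hs, hFP.2 s hs, hFQ2 _ hs2, hFP.2 _ hs2]
  · rw [meromorphicOrderAt_mul ((m1 s hs).mul (((m2 s hs).div (m3 s hs)).pow c)) (m5 s hs),
      meromorphicOrderAt_mul (m1 s hs) (((m2 s hs).div (m3 s hs)).pow c),
      meromorphicOrderAt_pow ((m2 s hs).div (m3 s hs)), meromorphicOrderAt_div (m2 s hs) (m3 s hs),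
      order_exp (m4 s hs), add_zero]
    congr 2
    have a1 : meromorphicOrderAt (fun z => FQ (z + 1 / 2)) s = meromorphicOrderAt FQ (s + 1 / 2) :=
      meromorphicOrderAt_comp_add_const_eq_meromorphicOrderAt
    have a2 : meromorphicOrderAt (fun z => FP (z + 1 / 2)) s = meromorphicOrderAt FP (s + 1 / 2) :=
      meromorphicOrderAt_comp_add_const_eq_meromorphicOrderAt
    rw [a1, a2]

end

lemma order_zeta_one : meromorphicOrderAt riemannZeta 1 = (-1 : ℤ) := by
  have h1 : AnalyticAt ℂ (Function.update (fun s : ℂ => (s - 1) * riemannZeta s) 1 1) 1 := by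
    refine Complex.analyticAt_of_differentiable_on_punctured_nhds_of_continuousAt ?_ ?_
    · filter_upwards [self_mem_nhdsWithin] with t ht
      have ht' : t ≠ 1 := ht
      have h2 : DifferentiableAt ℂ (fun s : ℂ => (s - 1) * riemannZeta s) t :=
        (differentiableAt_id.sub_const 1).mul (differentiableAt_riemannZeta ht')
      refine h2.congr_of_eventuallyEq ?_
      filter_upwards [isOpen_compl_singleton.mem_nhds ht'] with u hu
      rw [Function.update_of_ne hu]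
    · rw [continuousAt_update_same]
      exact riemannZeta_residue_one
  refine (meromorphicOrderAt_eq_int_iff (zeta_meromorphicAt 1)).2
    ⟨Function.update (fun s : ℂ => (s - 1) * riemannZeta s) 1 1, h1, by simp, ?_⟩
  filter_upwards [self_mem_nhdsWithin] with t ht
  have ht' : t ≠ 1 := ht
  rw [Function.update_of_ne ht', smul_eq_mul, zpow_neg, zpow_one, inv_mul_cancel_left₀ (sub_ne_zero.2 ht')]

lemma order_zeta_ne {s : ℂ} (hs : 1 ≤ s.re) (h1 : s ≠ 1) : meromorphicOrderAt riemannZeta s = 0 :=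
  order_zero_of_analytic (zeta_analytic h1) (riemannZeta_ne_zero_of_one_le_re hs)

/-- **Constant classes.** -/
theorem const_formula {K : Type} [Fintype K] {d : ℕ} {e : Nat.Primes → K → ℂ} (he : ∀ p k, ‖e p k‖ ≤ 1)
    {B : Nat.Primes → Fin d → ℂ} (hB : ∀ p j, ‖B p j‖ ≤ 1) (S : Finset Nat.Primes) (κ : ℤ)
    (hS : ∀ p, p ∉ S → ∑ k, e p k = κ) :
    ∃ h : ℂ → ℂ, DifferentiableOn ℂ h (HP (1 / 2)) ∧ ∀ s : ℂ, 1 < s.re →
      LEul (fun p (k : K × Fin d) => e p k.1 * B p k.2) s = LEul B s ^ κ * Complex.exp (h s) := by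
  classical
  have heB : ∀ p (k : K × Fin d), ‖e p k.1 * B p k.2‖ ≤ 1 := fun p k => by
    rw [norm_mul]
    exact mul_le_one₀ (he _ _) (norm_nonneg _) (hB _ _)
  obtain ⟨M, hM⟩ : ∃ M : ℕ, ∀ p : Nat.Primes, M ≤ p → p ∉ S := by
    refine ⟨(S.sup fun p : Nat.Primes => (p : ℕ)) + 1, fun p hp hpS => ?_⟩
    have h1 : (p : ℕ) ≤ S.sup fun p : Nat.Primes => (p : ℕ) :=
      Finset.le_sup (f := fun p : Nat.Primes => (p : ℕ)) hpS
    omega
  have n1 : ∑ k : K × Fin d, (lam (fun p => e p k.1 * B p k.2) - dir (fun p => e p k.1 * B p k.2)) ∈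
      H70.CS.Neg := Submodule.sum_mem _ fun k _ => lam_sub_dir fun p => heB p k
  have n2 : ∑ j : Fin d, (lam (fun p => B p j) - dir (fun p => B p j)) ∈ H70.CS.Neg :=
    Submodule.sum_mem _ fun j _ => lam_sub_dir fun p => hB p j
  have n3 : ∑ j : Fin d, dir (fun p => (∑ k, e p k - κ) * B p j) ∈ H70.CS.Neg := by
    refine Submodule.sum_mem _ fun j _ => dir_finite M fun p hp => ?_
    rw [hS p (hM p hp), sub_self, zero_mul]
  obtain ⟨h, hh, hhe⟩ := Submodule.add_mem _ (Submodule.sub_mem _ n1 (Submodule.smul_mem _ (κ : ℂ) n2)) n3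
  refine ⟨h, hh, fun s hs => ?_⟩
  have h1 := hhe s hs
  rw [LEul_eq heB hs, LEul_eq hB hs, ← h1, ← Complex.exp_int_mul, ← Complex.exp_add]
  congr 1
  simp only [Pi.add_apply, Pi.sub_apply, Pi.smul_apply, smul_eq_mul, Finset.sum_apply, sum_sub_distrib]
  have key : ∑ k : K × Fin d, dir (fun p => e p k.1 * B p k.2) s =
      κ * ∑ j : Fin d, dir (fun p => B p j) s + ∑ j : Fin d, dir (fun p => (∑ k, e p k - κ) * B p j) s := by
    have a1 : HasSum (fun p : Nat.Primes => ∑ k : K × Fin d, e p k.1 * B p k.2 * ((p : ℕ) : ℂ) ^ (-s))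
        (∑ k : K × Fin d, dir (fun p => e p k.1 * B p k.2) s) :=
      hasSum_sum fun k _ => (summable_dir (fun p => heB p k) hs).hasSum
    have a2 : HasSum (fun p : Nat.Primes => ∑ j : Fin d, B p j * ((p : ℕ) : ℂ) ^ (-s))
        (∑ j : Fin d, dir (fun p => B p j) s) :=
      hasSum_sum fun j _ => (summable_dir (fun p => hB p j) hs).hasSum
    have hb3 : ∀ (j : Fin d) p, ‖(∑ k, e p k - κ) * B p j‖ ≤ (Fintype.card K + |(κ : ℝ)|) * 1 := by
      intro j p
      rw [norm_mul]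
      refine mul_le_mul ((norm_sub_le _ _).trans (add_le_add ?_ ?_)) (hB p j) (norm_nonneg _) (by positivity)
      · refine (norm_sum_le _ _).trans ((sum_le_sum fun k _ => he p k).trans ?_)
        simp
      · rw [Complex.norm_intCast]
    have a3 : HasSum (fun p : Nat.Primes => ∑ j : Fin d, (∑ k, e p k - κ) * B p j * ((p : ℕ) : ℂ) ^ (-s))
        (∑ j : Fin d, dir (fun p => (∑ k, e p k - κ) * B p j) s) :=
      hasSum_sum fun j _ => (summable_dir (hb3 j) hs).hasSum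
    refine a1.unique ?_
    refine ((a2.mul_left (κ : ℂ)).add a3).congr_fun ?_ |> fun h => h
    intro p
    rw [Fintype.sum_prod_type, mul_sum, ← sum_add_distrib, sum_comm]
    refine sum_congr rfl fun j _ => ?_
    have h5 : ∀ k, e p (k, j).1 * B p (k, j).2 * ((p : ℕ) : ℂ) ^ (-s) =
        e p k * (B p j * ((p : ℕ) : ℂ) ^ (-s)) := fun k => by ring
    rw [sum_congr rfl fun k _ => h5 k, ← sum_mul]
    ring
  rw [key]
  ring

end Pool.Agent.H4.GG
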