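import Pool.Agent.H4.GG.Ord

/-! Sets of primes with a convergent sum of `p^(-1/2)` do not matter. -/

set_option autoImplicit false

namespace Pool.Agent.H4.GG

open Pool.Agent.H70.CS Complex Filter Topology Finset

lemma norm_log_le {b : ℂ} (hb : ‖b‖ ≤ 1) (p : Nat.Primes) {s : ℂ} (hs : 1 / 2 < s.re) :
    ‖-Complex.log (1 - b * ((p : ℕ) : ℂ) ^ (-s))‖ ≤ 3 * ((p : ℕ) : ℝ) ^ (-(1 / 2) : ℝ) := by
  have h1 := norm_mul_cpow_lt hb p.2.two_le hs
  have h2 := Complex.norm_log_one_add_le (z := -(b * ((p : ℕ) : ℂ) ^ (-s))) (by rw [norm_neg]; linarith)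
  rw [norm_neg, ← sub_eq_add_neg] at h2
  rw [norm_neg]
  have h4 : (1 - ‖b * ((p : ℕ) : ℂ) ^ (-s)‖)⁻¹ ≤ 4 := by
    rw [inv_le_comm₀ (by linarith) (by norm_num)]
    linarith
  have h6 : ‖b * ((p : ℕ) : ℂ) ^ (-s)‖ ≤ ((p : ℕ) : ℝ) ^ (-(1 / 2) : ℝ) := by
    rw [norm_mul, norm_cpow_neg p.2.pos]
    have h7 : (0 : ℝ) ≤ ((p : ℕ) : ℝ) ^ (-s.re) := by positivity
    have h8 : ((p : ℕ) : ℝ) ^ (-s.re) ≤ ((p : ℕ) : ℝ) ^ (-(1 / 2) : ℝ) :=
      Real.rpow_le_rpow_of_exponent_le (by exact_mod_cast p.2.one_lt.le) (by linarith)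
    nlinarith
  have h8 := norm_nonneg (b * ((p : ℕ) : ℂ) ^ (-s))
  have h9 : ‖b * ((p : ℕ) : ℂ) ^ (-s)‖ ^ 2 * (1 - ‖b * ((p : ℕ) : ℂ) ^ (-s)‖)⁻¹ / 2 ≤
      ‖b * ((p : ℕ) : ℂ) ^ (-s)‖ * 1 * 4 / 2 := by
    have h10 : ‖b * ((p : ℕ) : ℂ) ^ (-s)‖ ^ 2 ≤ ‖b * ((p : ℕ) : ℂ) ^ (-s)‖ * 1 := by nlinarith
    have h11 : (0 : ℝ) ≤ (1 - ‖b * ((p : ℕ) : ℂ) ^ (-s)‖)⁻¹ := inv_nonneg.2 (by linarith)
    gcongr
  linarith

/-- **Sharpness.** -/
theorem sharp {K : Type} [Fintype K] {e e' : Nat.Primes → K → ℂ} (he : ∀ p k, ‖e p k‖ ≤ 1)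
    (he' : ∀ p k, ‖e' p k‖ ≤ 1) {T : Set Nat.Primes}
    (hT : Summable (T.indicator fun p : Nat.Primes => ((p : ℕ) : ℝ) ^ (-(1 / 2) : ℝ)))
    (hee : ∀ p, p ∉ T → e p = e' p) {F F' : ℂ → ℂ} (hF : IsCont F (LEul e)) (hF' : IsCont F' (LEul e'))
    (s : ℂ) (hs : 1 / 2 ≤ s.re) : meromorphicOrderAt F s = meromorphicOrderAt F' s := by
  classical
  set f : (Nat.Primes → K → ℂ) → K → Nat.Primes → ℂ → ℂ := fun b k p z =>
    -Complex.log (1 - b p k * ((p : ℕ) : ℂ) ^ (-z)) with hf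
  have hbound : ∀ k p (z : ℂ), 1 / 2 < z.re → ‖f e' k p z - f e k p z‖ ≤
      6 * T.indicator (fun p : Nat.Primes => ((p : ℕ) : ℝ) ^ (-(1 / 2) : ℝ)) p := by
    intro k p z hz
    by_cases hp : p ∈ T
    · rw [Set.indicator_of_mem hp]
      refine (norm_sub_le _ _).trans ?_
      have h1 := norm_log_le (he' p k) p hz
      have h2 := norm_log_le (he p k) p hz
      rw [hf]
      simp only
      linarith
    · rw [Set.indicator_of_notMem hp, hf]
      simp only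
      rw [hee p hp, sub_self, norm_zero, mul_zero]
  have hdiff : ∀ b : Nat.Primes → K → ℂ, (∀ p k, ‖b p k‖ ≤ 1) → ∀ k p, DifferentiableOn ℂ (f b k p) (HP (1 / 2)) := by
    intro b hb k p z hz
    have hp : ((p : ℕ) : ℂ) ≠ 0 := by exact_mod_cast p.2.ne_zero
    have h1 : DifferentiableAt ℂ (fun s : ℂ => b p k * ((p : ℕ) : ℂ) ^ (-s)) z :=
      (differentiable_id.neg.const_cpow (Or.inl hp)).differentiableAt.const_mul _
    have h2 : DifferentiableAt ℂ (fun s : ℂ => 1 - b p k * ((p : ℕ) : ℂ) ^ (-s)) z :=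
      (differentiableAt_const _).sub h1
    have h3 : 1 - b p k * ((p : ℕ) : ℂ) ^ (-z) ∈ Complex.slitPlane := by
      rw [sub_eq_add_neg]
      refine Complex.mem_slitPlane_of_norm_lt_one ?_
      rw [norm_neg]
      have := norm_mul_cpow_lt (hb p k) p.2.two_le (show 1 / 2 < z.re from hz)
      linarith
    exact (h2.clog h3).neg.differentiableWithinAt
  set h : ℂ → ℂ := fun z => ∑ k, ∑' p : Nat.Primes, (f e' k p z - f e k p z) with hh
  have hhd : DifferentiableOn ℂ h (HP (1 / 2)) := by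
    refine DifferentiableOn.fun_sum fun k _ => differentiableOn_HP
      (fun p => (hdiff e' he' k p).sub (hdiff e he k p)) ?_
    intro ε R hε hR
    exact ⟨_, hT.mul_left 6, fun p z hz _ => hbound k p z (by linarith)⟩
  set C0 : ℝ := ∑ _k : K, ∑' p : Nat.Primes, 6 * T.indicator (fun p : Nat.Primes => ((p : ℕ) : ℝ) ^ (-(1 / 2) : ℝ)) p
    with hC0
  have hhb : ∀ z : ℂ, 1 / 2 < z.re → ‖h z‖ ≤ C0 := by
    intro z hz
    refine (norm_sum_le _ _).trans (sum_le_sum fun k _ => ?_)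
    exact tsum_of_norm_bounded (hT.mul_left 6).hasSum fun p => hbound k p z hz
  have hEq : ∀ z : ℂ, 1 < z.re → F' z = F z * Complex.exp (h z) := by
    intro z hz
    rw [hF'.2 z hz, hF.2 z hz, LEul_eq he' hz, LEul_eq he hz, ← Complex.exp_add]
    congr 1
    rw [hh]
    simp only
    rw [← sum_add_distrib]
    refine sum_congr rfl fun k _ => ?_
    unfold lam
    rw [← (summable_lam (fun p => he p k) hz).tsum_add
      ((summable_lam (fun p => he' p k) hz).sub (summable_lam (fun p => he p k) hz))]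
    refine tsum_congr fun p => ?_
    beta_reduce
    ring
  have hha : ∀ z : ℂ, 1 / 2 < z.re → AnalyticAt ℂ h z := fun z hz => hhd.analyticAt ((isOpen_HP _).mem_nhds hz)
  have mF : ∀ z : ℂ, 1 / 4 < z.re → MeromorphicAt F z := fun z hz => hF.1 z hz
  have mF' : ∀ z : ℂ, 1 / 4 < z.re → MeromorphicAt F' z := fun z hz => hF'.1 z hz
  have mE : ∀ z : ℂ, 1 / 2 < z.re → MeromorphicAt (fun z => Complex.exp (h z)) z := fun z hz =>
    (hha z hz).cexp.meromorphicAt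
  set D : ℂ → ℂ := F' - F * fun z => Complex.exp (h z) with hD
  have hDm : MeromorphicOn D (HP (1 / 2)) := fun z hz => by
    have hz' : (1 / 2 : ℝ) < z.re := hz
    exact (mF' z (by linarith)).sub ((mF z (by linarith)).mul (mE z hz'))
  have hD0 : ∀ z : ℂ, 1 / 2 < z.re → ∀ᶠ w in 𝓝[≠] z, F' w = F w * Complex.exp (h w) := by
    intro z hz
    have h2 : (1 : ℝ) < ((2 : ℝ) : ℂ).re := by rw [Complex.ofReal_re]; norm_num
    have htop : meromorphicOrderAt D ((2 : ℝ) : ℂ) = ⊤ := by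
      rw [meromorphicOrderAt_eq_top_iff]
      have h3 : ∀ᶠ w in 𝓝 ((2 : ℝ) : ℂ), w ∈ HP 1 := (isOpen_HP 1).mem_nhds h2
      filter_upwards [h3.filter_mono nhdsWithin_le_nhds] with w hw
      rw [hD]
      simp only [Pi.sub_apply, Pi.mul_apply]
      rw [hEq w hw, sub_self]
    have htop2 : meromorphicOrderAt D z = ⊤ := by
      by_contra hne
      exact hDm.meromorphicOrderAt_ne_top_of_isPreconnected (isPreconnected_HP _) hz
        (show (1 / 2 : ℝ) < ((2 : ℝ) : ℂ).re by linarith) hne htop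
    rw [meromorphicOrderAt_eq_top_iff] at htop2
    filter_upwards [htop2] with w hw
    rw [hD] at hw
    simp only [Pi.sub_apply, Pi.mul_apply] at hw
    exact sub_eq_zero.1 hw
  have tF : ∀ z : ℂ, 1 / 4 < z.re → meromorphicOrderAt F z ≠ ⊤ := fun z hz =>
    order_ne_top he (by norm_num) hF.1 hF.2 hz
  have tF' : ∀ z : ℂ, 1 / 4 < z.re → meromorphicOrderAt F' z ≠ ⊤ := fun z hz =>
    order_ne_top he' (by norm_num) hF'.1 hF'.2 hz
  -- frequently near `s` the quotient is bounded above and below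
  have hfreq : ∃ᶠ w in 𝓝[≠] s, F w ≠ 0 ∧ ‖(F' / F) w‖ ≤ Real.exp C0 ∧ Real.exp (-C0) ≤ ‖(F' / F) w‖ := by
    rw [Filter.frequently_iff]
    intro U hU
    obtain ⟨V, hV, hVs, hVU⟩ := mem_nhdsWithin.1 hU
    obtain ⟨δ, hδ, hball⟩ := Metric.isOpen_iff.1 hV s hVs
    set z : ℂ := s + ((δ / 2 : ℝ) : ℂ) with hz
    have hzre : z.re = s.re + δ / 2 := by rw [hz, Complex.add_re, Complex.ofReal_re]
    have hz2 : 1 / 2 < z.re := by rw [hzre]; linarith
    have hzs : z ≠ s := by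
      intro h0
      have := congrArg Complex.re h0
      rw [hzre] at this
      linarith
    have hzV : z ∈ V := by
      refine hball ?_
      rw [Metric.mem_ball, dist_eq_norm, hz, add_sub_cancel_left, Complex.norm_real, Real.norm_of_nonneg (by positivity)]
      linarith
    have e1 : ∀ᶠ w in 𝓝[≠] z, w ∈ V := mem_nhdsWithin_of_mem_nhds (hV.mem_nhds hzV)
    have e2 : ∀ᶠ w in 𝓝[≠] z, w ≠ s := mem_nhdsWithin_of_mem_nhds (isOpen_compl_singleton.mem_nhds hzs)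
    have e3 : ∀ᶠ w in 𝓝[≠] z, w ∈ HP (1 / 2) := mem_nhdsWithin_of_mem_nhds ((isOpen_HP _).mem_nhds hz2)
    have e4 := hD0 z hz2
    have e5 := (meromorphicOrderAt_ne_top_iff_eventually_ne_zero (mF z (by linarith))).1 (tF z (by linarith))
    obtain ⟨w, ⟨⟨⟨w1, w2⟩, w3⟩, w4⟩, w5⟩ := ((((e1.and e2).and e3).and e4).and e5).exists
    refine ⟨w, hVU ⟨w1, w2⟩, w5, ?_⟩
    have w6 : (F' / F) w = Complex.exp (h w) := by
      rw [Pi.div_apply, w4, mul_div_cancel_left₀ _ w5]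
    have w7 := hhb w w3
    have w8 : |(h w).re| ≤ C0 := (Complex.abs_re_le_norm _).trans w7
    rw [w6, Complex.norm_exp]
    exact ⟨Real.exp_le_exp.2 (abs_le.1 w8).2, Real.exp_le_exp.2 (abs_le.1 w8).1⟩
  have hs4 : (1 / 4 : ℝ) < s.re := by linarith
  have hmd : MeromorphicAt (F' / F) s := (mF' s hs4).div (mF s hs4)
  have hod : meromorphicOrderAt (F' / F) s = meromorphicOrderAt F' s - meromorphicOrderAt F s :=
    meromorphicOrderAt_div (mF' s hs4) (mF s hs4)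
  have hzero : meromorphicOrderAt (F' / F) s = 0 := by
    rcases lt_trichotomy (meromorphicOrderAt (F' / F) s) 0 with hlt | heq | hgt
    · exfalso
      have h1 := tendsto_cobounded_of_meromorphicOrderAt_neg hlt
      have h2 := tendsto_norm_cobounded_atTop.comp h1
      have h3 := h2.eventually (eventually_gt_atTop (Real.exp C0))
      obtain ⟨w, ⟨_, w1, _⟩, w2⟩ := (hfreq.and_eventually h3).exists
      exact absurd w1 (not_le.2 w2)
    · exact heq
    · exfalso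
      have h1 := tendsto_zero_of_meromorphicOrderAt_pos hgt
      have h2 := h1.norm
      rw [norm_zero] at h2
      have h3 := h2.eventually (gt_mem_nhds (Real.exp_pos (-C0)))
      obtain ⟨w, ⟨_, _, w1⟩, w2⟩ := (hfreq.and_eventually h3).exists
      exact absurd w1 (not_le.2 w2)
  rw [hzero] at hod
  obtain ⟨a, ha⟩ := WithTop.ne_top_iff_exists.1 (tF s hs4)
  obtain ⟨b, hb⟩ := WithTop.ne_top_iff_exists.1 (tF' s hs4)
  rw [← ha, ← hb] at hod ⊢
  have h1 : ((0 : ℤ) : WithTop ℤ) = ((b - a : ℤ) : WithTop ℤ) := hod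
  have h2 : (0 : ℤ) = b - a := by exact_mod_cast h1
  have h3 : a = b := by omega
  rw [h3]

end Pool.Agent.H4.GG
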